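import Pool.Agent.Helper2.BC.Fin

/-!
# Project OB (MP_0f6f3f_an), layer BC: the big cell for a base of the root system

`big_cell_base`: `α`, `β` a base (every root is `± (m α + n β)`, `m, n : ℕ`), `Hv`, `Hu` the dual basis of the flat, the sequences `exp(k n • ad Hv)`, `exp(k' n • ad Hu)`.
-/

set_option autoImplicit false

open Matrix Set Filter Topology

namespace Pool.Agent.Helper2.BC

open Pool.Agent.Helper96.SA Pool.Agent.Helper96.TO Pool.Agent.Helper35.TZ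
open Pool.Agent.Helper78.BM (Ctr)
open Pool.Agent.Helper66.FR (cen mem_cen)
open Pool.Agent.Helper66.BD (isAdj_component)

variable {L : Type} [LieRing L] [LieAlgebra ℝ L] {N : ℕ} {θ : L ≃ₗ⁅ℝ⁆ L} {b : Module.Basis (Fin N) ℝ L} {A : Submodule ℝ L}

/-- The sequence `exp(k n • ad H)`. -/
noncomputable def sqc (b : Module.Basis (Fin N) ℝ L) (H : L) (k : ℕ → ℝ) : ℕ → autC b := fun n =>
  ⟨ex (LinearMap.toMatrix b b (LieAlgebra.ad ℝ L (k n • H))), (isAdj_component b).exp_ad (k n • H)⟩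

theorem sqc_coe (b : Module.Basis (Fin N) ℝ L) (H : L) (k : ℕ → ℝ) (n : ℕ) :
    (sqc b H k n : GL (Fin N) ℝ) = ex (k n • TT_to b H) := by
  rw [← map_smul]
  rfl

theorem big_cell_base (h : CartanBasis θ b) (hA : MaxFlat θ A) (h2 : Module.finrank ℝ A = 2) {α β : Module.Dual ℝ A} (hβ : β ∈ rootsL A)
    (hsp : ∀ φ ∈ rootsL A, ∃ m n : ℕ, φ = (m : ℝ) • α + (n : ℝ) • β ∨ φ = -((m : ℝ) • α + (n : ℝ) • β)) {Hv Hu : A}
    (av : α Hv = 1) (bv : β Hv = 0) (au : α Hu = 0) (bu : β Hu = 1) {k k' : ℕ → ℝ} (hk : Tendsto k atTop atTop) (hk' : Tendsto k' atTop atTop)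
    (Z : Set (autC b)) (hZ : IsClosed Z) (h1 : (1 : autC b) ∈ Z)
    (hl : ∀ q ∈ cen (sqc b (Hv : L) k), ∀ z ∈ Z, q * z ∈ Z) (hl' : ∀ q ∈ Ctr (sqc b (Hv : L) k), ∀ z ∈ Z, q * z ∈ Z)
    (hr : ∀ q ∈ cen (sqc b (Hu : L) k'), ∀ z ∈ Z, z * q ∈ Z) (hr' : ∀ q ∈ Ctr (fun n => (sqc b (Hu : L) k' n)⁻¹), ∀ z ∈ Z, z * q ∈ Z) :
    Z = Set.univ := by
  have hli : LinearIndependent ℝ ![Hv, Hu] := by
    rw [LinearIndependent.pair_iff]
    intro s t hst
    have e1 := congrArg α hst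
    have e2 := congrArg β hst
    rw [map_add, map_smul, map_smul, av, au, map_zero, smul_eq_mul, smul_eq_mul, mul_one, mul_zero, add_zero] at e1
    rw [map_add, map_smul, map_smul, bv, bu, map_zero, smul_eq_mul, smul_eq_mul, mul_one, mul_zero, zero_add] at e2
    exact ⟨e1, e2⟩
  have hp : ∀ φ ∈ rootsL A, 0 < φ Hv → 0 ≤ φ Hu := by
    intro φ hφ h0
    obtain ⟨m, n, rfl | rfl⟩ := hsp φ hφ
    · simp only [LinearMap.add_apply, LinearMap.smul_apply, au, bu, smul_eq_mul]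
      positivity
    · exfalso
      simp only [LinearMap.neg_apply, LinearMap.add_apply, LinearMap.smul_apply, av, bv, smul_eq_mul] at h0
      have : (0 : ℝ) ≤ m := Nat.cast_nonneg m
      linarith
  refine big_cell_rk2 h hA h2 hli ⟨β, hβ, bv⟩ hp (sqc_coe b (Hv : L) k) (sqc_coe b (Hu : L) k') (hk.mono_left Nat.hyperfilter_le_atTop)
    (hk'.mono_left Nat.hyperfilter_le_atTop) hZ h1 ?_ ?_
  · rintro q z (hq | hq) hz
    · exact hl' q hq z hz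
    · exact hl q hq z hz
  · rintro q z (hq | hq) hz
    · exact hr' q hq z hz
    · exact hr q hq z hz

/-- The big cell property with the sides exchanged (`BigC b (b')⁻¹` of layer LF from `BCell b b'`). -/
theorem bigC_of {G1 : Type} [Group G1] [TopologicalSpace G1] [IsTopologicalGroup G1] {b b' : ℕ → G1}
    (h : ∀ Z : Set G1, IsClosed Z → 1 ∈ Z → (∀ q ∈ cen b, ∀ z ∈ Z, q * z ∈ Z) → (∀ q ∈ Ctr b, ∀ z ∈ Z, q * z ∈ Z) →
      (∀ q ∈ cen b', ∀ z ∈ Z, z * q ∈ Z) → (∀ q ∈ Ctr (fun n => (b' n)⁻¹), ∀ z ∈ Z, z * q ∈ Z) → Z = Set.univ)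
    (Z : Set G1) (hZ : IsClosed Z) (h1 : 1 ∈ Z) (hl : ∀ g ∈ Z, ∀ q ∈ Ctr b, g * q ∈ Z) (hl' : ∀ g ∈ Z, ∀ q ∈ cen b, g * q ∈ Z)
    (hr : ∀ g ∈ Z, ∀ q ∈ Ctr (fun n => (b' n)⁻¹), q * g ∈ Z) (hr' : ∀ g ∈ Z, ∀ q ∈ cen (fun n => (b' n)⁻¹), q * g ∈ Z) :
    ∀ g, g ∈ Z := by
  have h3 : (Z⁻¹ : Set G1) = univ := by
    refine h _ (hZ.preimage continuous_inv) ?_ ?_ ?_ ?_ ?_
    · rw [Set.mem_inv, inv_one]
      exact h1
    · intro q hq z hz
      rw [Set.mem_inv] at hz ⊢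
      rw [_root_.mul_inv_rev]
      exact hl' _ hz _ (inv_mem hq)
    · intro q hq z hz
      rw [Set.mem_inv] at hz ⊢
      rw [_root_.mul_inv_rev]
      exact hl _ hz _ (Ctr_inv hq)
    · intro q hq z hz
      rw [Set.mem_inv] at hz ⊢
      rw [_root_.mul_inv_rev]
      refine hr' _ hz _ (inv_mem ?_)
      rw [mem_cen] at hq ⊢
      intro n
      exact ((show Commute (b' n) q from hq n).inv_left).eq
    · intro q hq z hz
      rw [Set.mem_inv] at hz ⊢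
      rw [_root_.mul_inv_rev]
      exact hr _ hz _ (Ctr_inv hq)
  intro g
  have h4 : g⁻¹ ∈ (Z⁻¹ : Set G1) := by
    rw [h3]
    trivial
  rwa [Set.mem_inv, inv_inv] at h4

end Pool.Agent.Helper2.BC
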