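import Pool.Agent.Helper2.BC.Defs

/-!
# Project OB, layer BC, block BC-D: the transversal elements are dense

PROOF. Let `π` be the matrix (with respect to `b`) of the projection on `es H (Iic 0)` along `es H (Ioi 0)`, and `F(g) = det (π * g * π + (1 - π))`. If `F(g) ≠ 0` then `Tv b H g`: for `x ∈ es H (Iic 0)` with `g x ∈ es H (Ioi 0)` we have `(π g π + (1 - π)) x = π (g x) + 0 = 0`, so `x = 0`.
`F(1) = det 1 = 1`. Every `g ∈ autC b` is a product of exponentials `ex (TT_to b x)` (`component_le h`), so (`Subgroup.closure_induction`) there is a curve `γ : ℝ → GL (Fin N) ℝ` with `γ 0 = 1`, `γ 1 = g`, `γ t ∈ autC b`, such that all entries of `γ t` and of `(γ t)⁻¹` are analytic functions of `t`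
on `ℝ` (`AnalyticOnNhd ℝ _ univ`): for the generators `γ t = ex (t • TT_to b x) = ex (TT_to b (t • x))`, whose entries are analytic (`NormedSpace.exp_analytic` composed with a linear map), and products and inverses. `F(γ t)` is a polynomial in the entries, so it is analytic; it is not
identically `0` (`t = 0`), so by the identity theorem (`AnalyticOnNhd.eqOn_zero_of_preconnected_of_frequently_eq_zero`, `ℝ` is connected) `F(γ t) ≠ 0` for all `t ≠ 1` near `1`, and `γ t → γ 1 = g` (the topology of `GL` is the one of the entries: `isEmbedding_val` in `Helper96/SA/Exp.lean`).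
-/

set_option autoImplicit false

open Matrix Set

namespace Pool.Agent.Helper2.BC

open Pool.Agent.Helper96.SA Pool.Agent.Helper96.TO Pool.Agent.Helper35.TZ

variable {L : Type} [LieRing L] [LieAlgebra ℝ L] {N : ℕ} {θ : L ≃ₗ⁅ℝ⁆ L} {b e : Module.Basis (Fin N) ℝ L} {H : L} {d : Fin N → ℝ}

/-- The entries of `exp (t X)` are analytic in `t`. -/
private theorem exp_entry_h12 (X : Mat N) (i j : Fin N) :
    AnalyticOnNhd ℝ (fun t : ℝ => (NormedSpace.exp (t • X) : Mat N) i j) univ := by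
  intro t _
  open scoped Matrix.Norms.Operator in
  have h1 : AnalyticAt ℝ (fun s : ℝ => s • X) t := (analyticAt_id (𝕜 := ℝ)).smul analyticAt_const
  open scoped Matrix.Norms.Operator in
  have h2 : AnalyticAt ℝ (fun s : ℝ => (NormedSpace.exp (s • X) : Mat N)) t :=
    AnalyticAt.fun_comp (g := NormedSpace.exp) (f := fun s : ℝ => s • X) (NormedSpace.exp_analytic (𝕂 := ℝ) (t • X)) h1
  open scoped Matrix.Norms.Operator in
  have h3 : AnalyticAt ℝ (fun M : Mat N => M i j) (NormedSpace.exp (t • X) : Mat N) :=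
    (LinearMap.toContinuousLinearMap ((LinearMap.proj j : (Fin N → ℝ) →ₗ[ℝ] ℝ) ∘ₗ (LinearMap.proj i : (Fin N → Fin N → ℝ) →ₗ[ℝ] (Fin N → ℝ)) : Mat N →ₗ[ℝ] ℝ)).analyticAt _
  open scoped Matrix.Norms.Operator in
  exact AnalyticAt.fun_comp (g := fun M : Mat N => M i j) (f := fun s : ℝ => (NormedSpace.exp (s • X) : Mat N)) h3 h2

/-- Analytic curves through `1` and `g`. -/
theorem exists_curve (h : CartanBasis θ b) {g : GL (Fin N) ℝ} (hg : g ∈ autC b) : ∃ γ : ℝ → GL (Fin N) ℝ, γ 0 = 1 ∧ γ 1 = g ∧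
    (∀ t, γ t ∈ autC b) ∧ (∀ i j, AnalyticOnNhd ℝ (fun t => (γ t : Mat N) i j) univ) ∧
    ∀ i j, AnalyticOnNhd ℝ (fun t => (((γ t)⁻¹ : GL (Fin N) ℝ) : Mat N) i j) univ := by
  refine Subgroup.closure_induction (p := fun g _ => ∃ γ : ℝ → GL (Fin N) ℝ, γ 0 = 1 ∧ γ 1 = g ∧
    (∀ t, γ t ∈ autC b) ∧ (∀ i j, AnalyticOnNhd ℝ (fun t => (γ t : Mat N) i j) univ) ∧
    ∀ i j, AnalyticOnNhd ℝ (fun t => (((γ t)⁻¹ : GL (Fin N) ℝ) : Mat N) i j) univ) ?_ ?_ ?_ ?_ (component_le h hg)
  · rintro _ ⟨x, rfl⟩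
    refine ⟨fun t => ex (TT_to b (t • x)), ?_, ?_, fun t => ex_mem_autC b _, fun i j => ?_, fun i j => ?_⟩
    · beta_reduce
      rw [zero_smul, map_zero, ex_zero]
    · beta_reduce
      rw [one_smul]
      rfl
    · have e : (fun t : ℝ => ((ex (TT_to b (t • x)) : GL (Fin N) ℝ) : Mat N) i j) =
          fun t : ℝ => (NormedSpace.exp (t • TT_to b x) : Mat N) i j := by
        funext t
        rw [map_smul, ex_coe]
      rw [e]
      exact exp_entry_h12 _ i j
    · have e : (fun t : ℝ => (((ex (TT_to b (t • x)))⁻¹ : GL (Fin N) ℝ) : Mat N) i j) =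
          fun t : ℝ => (NormedSpace.exp (t • (-TT_to b x)) : Mat N) i j := by
        funext t
        rw [map_smul, ← ex_neg, ex_coe, smul_neg]
      rw [e]
      exact exp_entry_h12 _ i j
  · refine ⟨fun _ => 1, rfl, rfl, fun _ => one_mem _, fun i j => ?_, fun i j => ?_⟩
    · exact fun _ _ => analyticAt_const
    · exact fun _ _ => analyticAt_const
  · rintro g1 g2 _ _ ⟨γ1, a1, b1, c1, d1, e1⟩ ⟨γ2, a2, b2, c2, d2, e2⟩
    refine ⟨fun t => γ1 t * γ2 t, ?_, ?_, fun t => mul_mem (c1 t) (c2 t), fun i j => ?_, fun i j => ?_⟩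
    · beta_reduce
      rw [a1, a2, one_mul]
    · beta_reduce
      rw [b1, b2]
    · have e : (fun t : ℝ => ((γ1 t * γ2 t : GL (Fin N) ℝ) : Mat N) i j) =
          fun t : ℝ => ∑ k, (γ1 t : Mat N) i k * (γ2 t : Mat N) k j := by
        funext t
        rw [Units.val_mul, Matrix.mul_apply]
      rw [e]
      exact Finset.analyticOnNhd_fun_sum _ fun k _ => (d1 i k).mul (d2 k j)
    · have e : (fun t : ℝ => (((γ1 t * γ2 t)⁻¹ : GL (Fin N) ℝ) : Mat N) i j) =
          fun t : ℝ => ∑ k, (((γ2 t)⁻¹ : GL (Fin N) ℝ) : Mat N) i k * (((γ1 t)⁻¹ : GL (Fin N) ℝ) : Mat N) k j := by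
        funext t
        rw [_root_.mul_inv_rev, Units.val_mul, Matrix.mul_apply]
      rw [e]
      exact Finset.analyticOnNhd_fun_sum _ fun k _ => (e2 i k).mul (e1 k j)
  · rintro g1 _ ⟨γ1, a1, b1, c1, d1, e1⟩
    refine ⟨fun t => (γ1 t)⁻¹, ?_, ?_, fun t => inv_mem (c1 t), e1, fun i j => ?_⟩
    · beta_reduce
      rw [a1, inv_one]
    · beta_reduce
      rw [b1]
    · have e : (fun t : ℝ => ((((γ1 t)⁻¹)⁻¹ : GL (Fin N) ℝ) : Mat N) i j) = fun t : ℝ => (γ1 t : Mat N) i j := by
        funext t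
        rw [inv_inv]
      rw [e]
      exact d1 i j

theorem dns (h : CartanBasis θ b) (hE : EB H e d) {g : GL (Fin N) ℝ} (hg : g ∈ autC b) :
    g ∈ closure {k : GL (Fin N) ℝ | k ∈ autC b ∧ Tv b H k} := by
  classical
  obtain ⟨γ, h0, h1, hmem, han, han'⟩ := exists_curve h hg
  -- the projection
  obtain ⟨p, hp⟩ : ∃ p : L →ₗ[ℝ] L, p = e.constr ℝ (fun i => if d i ∈ Iic (0 : ℝ) then e i else 0) :=
    ⟨_, rfl⟩
  have pa : ∀ x, p x = ∑ i, e.repr x i • (if d i ∈ Iic (0 : ℝ) then e i else 0) := by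
    intro x
    rw [hp, Module.Basis.constr_apply_fintype]
    rfl
  have p1 : ∀ x ∈ es H (Iic 0), p x = x := by
    intro x hx
    rw [pa]
    conv_rhs => rw [← e.sum_repr x]
    refine Finset.sum_congr rfl fun i _ => ?_
    by_cases hi : d i ∈ Iic (0 : ℝ)
    · rw [if_pos hi]
    · rw [(mem_es hE).1 hx i hi, zero_smul, zero_smul]
  have p2 : ∀ x ∈ es H (Ioi 0), p x = 0 := by
    intro x hx
    rw [pa]
    refine Finset.sum_eq_zero fun i _ => ?_
    by_cases hi : d i ∈ Iic (0 : ℝ)
    · have hi' : d i ∉ Ioi (0 : ℝ) := fun h2 => not_lt.2 (mem_Iic.1 hi) (mem_Ioi.1 h2)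
      rw [(mem_es hE).1 hx i hi', zero_smul]
    · rw [if_neg hi, smul_zero]
  have p3 : ∀ x, p x ∈ es H (Iic 0) := by
    intro x
    rw [pa]
    refine Submodule.sum_mem _ fun i _ => Submodule.smul_mem _ _ ?_
    split_ifs with hi
    · exact hE.mem i hi
    · exact Submodule.zero_mem _
  obtain ⟨π, hπ⟩ : ∃ π : Mat N, π = LinearMap.toMatrix b b p := ⟨_, rfl⟩
  have hππ : π * π = π := by
    rw [hπ, ← LinearMap.toMatrix_mul]
    congr 1
    exact LinearMap.ext fun x => p1 _ (p3 x)
  -- the determinant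
  have key : ∀ k : GL (Fin N) ℝ, (π * (k : Mat N) * π + (1 - π)).det ≠ 0 → Tv b H k := by
    intro k hk x hx hkx
    have e1 : toLin b b (π * (k : Mat N) * π + (1 - π)) x = 0 := by
      rw [map_add, map_sub, toLin_mul b b b, toLin_mul b b b, toLin_one, hπ, toLin_toMatrix]
      change p (ac b k (p x)) + (x - p x) = 0
      rw [p1 x hx, p2 _ hkx, sub_self, add_zero]
    have e2 : (π * (k : Mat N) * π + (1 - π)).mulVec (b.repr x) = 0 := by
      have h2 := LinearMap.toMatrix_mulVec_repr b b (toLin b b (π * (k : Mat N) * π + (1 - π))) x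
      rw [LinearMap.toMatrix_toLin, e1, map_zero] at h2
      exact h2
    have e3 := Matrix.eq_zero_of_mulVec_eq_zero hk e2
    apply b.repr.injective
    rw [map_zero]
    ext i
    exact congrFun e3 i
  have hF : AnalyticOnNhd ℝ (fun t : ℝ => (π * (γ t : Mat N) * π + (1 - π)).det) univ := by
    have hent : ∀ i j, AnalyticOnNhd ℝ (fun t : ℝ => (π * (γ t : Mat N) * π + (1 - π)) i j) univ := by
      intro i j
      have e1 : (fun t : ℝ => (π * (γ t : Mat N) * π + (1 - π)) i j) =
          fun t => (∑ l, (∑ m, π i m * (γ t : Mat N) m l) * π l j) + (1 - π) i j := by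
        funext t
        rw [Matrix.add_apply, Matrix.mul_apply]
        simp only [Matrix.mul_apply]
      rw [e1]
      refine AnalyticOnNhd.add ?_ analyticOnNhd_const
      refine Finset.analyticOnNhd_fun_sum _ fun l _ => ?_
      refine AnalyticOnNhd.mul ?_ analyticOnNhd_const
      refine Finset.analyticOnNhd_fun_sum _ fun m _ => ?_
      exact analyticOnNhd_const.mul (han m l)
    have e2 : (fun t : ℝ => (π * (γ t : Mat N) * π + (1 - π)).det) =
        fun t => ∑ σ : Equiv.Perm (Fin N), ((Equiv.Perm.sign σ : ℤˣ) : ℝ) *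
          ∏ i, (π * (γ t : Mat N) * π + (1 - π)) (σ i) i := by
      funext t
      rw [Matrix.det_apply']
    rw [e2]
    refine Finset.analyticOnNhd_fun_sum _ fun σ _ => ?_
    refine analyticOnNhd_const.mul ?_
    exact Finset.analyticOnNhd_fun_prod _ fun i _ => hent _ _
  have hne : ∀ᶠ t in nhdsWithin (1 : ℝ) {1}ᶜ, (π * (γ t : Mat N) * π + (1 - π)).det ≠ 0 := by
    by_contra hcon
    have hfr : ∃ᶠ t in nhdsWithin (1 : ℝ) {1}ᶜ, (π * (γ t : Mat N) * π + (1 - π)).det = 0 := by
      rw [Filter.Frequently]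
      exact hcon
    have h2 := hF.eqOn_zero_of_preconnected_of_frequently_eq_zero isPreconnected_univ (mem_univ _) hfr
      (mem_univ (0 : ℝ))
    simp only [h0, Units.val_one, mul_one, hππ, add_sub_cancel, det_one, Pi.zero_apply] at h2
    exact one_ne_zero h2
  have hcont : Continuous γ := by
    rw [Units.continuous_iff]
    constructor
    · exact continuous_matrix fun i j => by
        have h2 := (han i j).continuousOn
        rwa [← continuousOn_univ]
    · exact continuous_matrix fun i j => by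
        have h2 := (han' i j).continuousOn
        rwa [← continuousOn_univ]
  have hlim : Filter.Tendsto γ (nhdsWithin (1 : ℝ) {1}ᶜ) (nhds g) := by
    rw [← h1]
    exact (hcont.tendsto 1).mono_left nhdsWithin_le_nhds
  refine mem_closure_of_tendsto hlim ?_
  filter_upwards [hne] with t ht
  exact ⟨hmem t, key _ ht⟩

end Pool.Agent.Helper2.BC
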