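import Pool.Agent.Helper2.BC.Defs

/-!
# Project OB, layer BC, block BC-J: bases of eigenvectors

PROOF of `exists_eb`. `TT_to b H` (the matrix of `ad H` in the basis `b`) is symmetric (`TT_symm_iff_to h`), so `TT_to b H = O diag(d) Oᵀ` (`Pool.Agent.Helper66.BD.exists_spec`). The basis `e i = ∑ k, O k i • b k` consists of eigenvectors, and it is orthonormal for
`- κ(x, θ y)` since `b` is (`- κ(e i, θ (e j)) = ∑ k, O k i * O k j = (Oᵀ O) i j`; `form_self`).
-/

set_option autoImplicit false

open Matrix Set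

namespace Pool.Agent.Helper2.BC

open Pool.Agent.Helper96.SA Pool.Agent.Helper96.TO Pool.Agent.Helper35.TZ

variable {L : Type} [LieRing L] [LieAlgebra ℝ L] {N : ℕ} {θ : L ≃ₗ⁅ℝ⁆ L} {b e : Module.Basis (Fin N) ℝ L} {H K : L} {A : Submodule ℝ L}

theorem exists_eb (h : CartanBasis θ b) (hH : θ H = -H) :
    ∃ (e : Module.Basis (Fin N) ℝ L) (d : Fin N → ℝ), CartanBasis θ e ∧ EB H e d := by
  have hs : (TT_to b H)ᵀ = TT_to b H := (TT_symm_iff_to h H).2 hH
  obtain ⟨O, d, h1, h2, h3⟩ := Pool.Agent.Helper66.BD.exists_spec hs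
  let φ : L ≃ₗ[ℝ] L := LinearEquiv.ofLinear (toLin b b O) (toLin b b Oᵀ)
    (by rw [← toLin_mul b b b, h2, toLin_one]) (by rw [← toLin_mul b b b, h1, toLin_one])
  have he : ∀ i, b.map φ i = toLin b b O (b i) := fun i => by
    rw [Module.Basis.map_apply]
    rfl
  have hc : ∀ i k, b.equivFun (b.map φ i) k = O k i := by
    intro i k
    rw [he, toLin_self, map_sum, Finset.sum_apply, Finset.sum_eq_single k]
    · simp
    · intro l _ hl
      rw [map_smul, Pi.smul_apply, Module.Basis.equivFun_self, if_neg hl, smul_zero]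
    · intro hk
      exact absurd (Finset.mem_univ k) hk
  refine ⟨b.map φ, d, ⟨h.invol, fun i j => ?_⟩, fun i => ?_⟩
  · rw [form_self h]
    simp only [hc]
    have h4 := congrFun (congrFun h1 i) j
    rw [mul_apply, one_apply] at h4
    simpa [transpose_apply] using h4
  · rw [← toLin_TT_to b, he, h3]
    have h5 : toLin b b (O * diagonal d * Oᵀ) (toLin b b O (b i)) =
        toLin b b (O * diagonal d * Oᵀ * O) (b i) := by
      rw [toLin_mul b b b (O * diagonal d * Oᵀ) O]
      rfl
    rw [h5, mul_assoc, h1, mul_one, toLin_mul b b b]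
    have h6 : toLin b b (diagonal d) (b i) = d i • b i := by
      rw [toLin_self, Finset.sum_eq_single i]
      · rw [diagonal_apply_eq]
      · intro l _ hl
        rw [diagonal_apply_ne _ hl, zero_smul]
      · intro hk
        exact absurd (Finset.mem_univ i) hk
    rw [LinearMap.comp_apply, h6, map_smul]

end Pool.Agent.Helper2.BC
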