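import Pool.Agent.Helper2.BC.Defs

/-!
# Project OB, layer BC, block BC-J2: joint bases of eigenvectors

PROOF of `exists_joint`. `TT_to b H` and `TT_to b K` are commuting symmetric matrices (`TT_symm_iff_to h`, `TT_comm_iff_to h`). The joint eigenvectors span the space: e.g. Mathlib's `LinearMap.IsSymmetric.directSum_isInternal_of_commute` (Mathlib/Analysis/InnerProductSpace/JointEigenspace.lean) for
the operators `Matrix.toEuclideanLin` of the matrices. A basis contained in a spanning set: `Module.Basis.ofSpan`, `Module.Basis.ofSpan_subset`, reindexed by `Fin N` (the cardinality is `finrank ℝ L = N`). Or by hand: `V l = eigenspace (ad H) l` is invariant under `ad K`, bases of eigenvectors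
of `ad K` on the `V l`.
-/

set_option autoImplicit false

open Matrix Set

namespace Pool.Agent.Helper2.BC

open Pool.Agent.Helper96.SA Pool.Agent.Helper96.TO Pool.Agent.Helper35.TZ

variable {L : Type} [LieRing L] [LieAlgebra ℝ L] {N : ℕ} {θ : L ≃ₗ⁅ℝ⁆ L} {b e : Module.Basis (Fin N) ℝ L} {H K : L}

/-- The space with the form `-κ(x, θ y)`. -/
private noncomputable def Phi53 (b : Module.Basis (Fin N) ℝ L) : L ≃ₗ[ℝ] EuclideanSpace ℝ (Fin N) :=
  b.equivFun.trans (WithLp.linearEquiv 2 ℝ (Fin N → ℝ)).symm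

private noncomputable def Ad53 (b : Module.Basis (Fin N) ℝ L) (H : L) :
    EuclideanSpace ℝ (Fin N) →ₗ[ℝ] EuclideanSpace ℝ (Fin N) :=
  (Phi53 b).toLinearMap ∘ₗ (LieAlgebra.ad ℝ L H : Module.End ℝ L) ∘ₗ (Phi53 b).symm.toLinearMap

private theorem Ad_apply53 (H : L) (v : EuclideanSpace ℝ (Fin N)) :
    Ad53 b H v = Phi53 b ⁅H, (Phi53 b).symm v⁆ := rfl

private theorem inner53 (h : CartanBasis θ b) (x y : L) :
    inner ℝ (Phi53 b x) (Phi53 b y) = -killingForm ℝ L x (θ y) := by
  rw [form_self h x y, PiLp.inner_apply]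
  refine Finset.sum_congr rfl fun i _ => ?_
  change inner ℝ (b.equivFun x i) (b.equivFun y i) = _
  rw [real_inner_eq_re_inner]
  simp [mul_comm]

private theorem symm53 (h : CartanBasis θ b) (hH : θ H = -H) : (Ad53 b H).IsSymmetric := by
  intro v w
  obtain ⟨x, rfl⟩ := (Phi53 b).surjective v
  obtain ⟨y, rfl⟩ := (Phi53 b).surjective w
  rw [Ad_apply53, Ad_apply53, LinearEquiv.symm_apply_apply, LinearEquiv.symm_apply_apply,
    inner53 h, inner53 h]
  have h1 : killingForm ℝ L ⁅H, x⁆ (θ y) = -killingForm ℝ L x ⁅H, θ y⁆ :=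
    LieModule.traceForm_apply_lie_apply' ℝ L L H x (θ y)
  have h2 : θ ⁅H, y⁆ = -⁅H, θ y⁆ := by
    rw [LieEquiv.map_lie, hH, neg_lie]
  rw [h1, h2, map_neg]

private theorem comm53 (hc : ⁅H, K⁆ = 0) : Commute (Ad53 b H) (Ad53 b K) := by
  refine LinearMap.ext fun v => ?_
  change Ad53 b H (Ad53 b K v) = Ad53 b K (Ad53 b H v)
  rw [Ad_apply53, Ad_apply53, Ad_apply53, Ad_apply53, LinearEquiv.symm_apply_apply,
    LinearEquiv.symm_apply_apply, leibniz_lie, hc, zero_lie, zero_add]

private theorem eig53 {H : L} {v : EuclideanSpace ℝ (Fin N)} {α : ℝ}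
    (hv : v ∈ Module.End.eigenspace (Ad53 b H) α) : ⁅H, (Phi53 b).symm v⁆ = α • (Phi53 b).symm v := by
  rw [Module.End.mem_eigenspace_iff, Ad_apply53] at hv
  rw [← map_smul, ← hv, LinearEquiv.symm_apply_apply]

theorem exists_joint (h : CartanBasis θ b) (hH : θ H = -H) (hK : θ K = -K) (hc : ⁅H, K⁆ = 0) :
    ∃ (e : Module.Basis (Fin N) ℝ L) (d f : Fin N → ℝ), EB H e d ∧ EB K e f := by
  set s : Set L := {x | (∃ α : ℝ, ⁅H, x⁆ = α • x) ∧ ∃ γ : ℝ, ⁅K, x⁆ = γ • x} with hs
  have htop := LinearMap.IsSymmetric.iSup_iSup_eigenspace_inf_eigenspace_eq_top_of_commute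
    (symm53 h hH) (symm53 h hK) (comm53 (b := b) hc)
  have hle : (⨆ α, ⨆ γ, Module.End.eigenspace (Ad53 b H) α ⊓ Module.End.eigenspace (Ad53 b K) γ) ≤
      (Submodule.span ℝ s).comap (Phi53 b).symm.toLinearMap := by
    refine iSup_le fun α => iSup_le fun γ => ?_
    rintro v ⟨h1, h2⟩
    exact Submodule.subset_span ⟨⟨α, eig53 h1⟩, ⟨γ, eig53 h2⟩⟩
  rw [htop] at hle
  have hspan : ⊤ ≤ Submodule.span ℝ s := by
    intro x _
    have h1 := hle (x := Phi53 b x) Submodule.mem_top
    rw [Submodule.mem_comap] at h1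
    change (Phi53 b).symm (Phi53 b x) ∈ _ at h1
    rwa [LinearEquiv.symm_apply_apply] at h1
  set e0 := Module.Basis.ofSpan hspan with he0
  set e : Module.Basis (Fin N) ℝ L := e0.reindex (e0.indexEquiv b) with he
  have hes : ∀ i, e i ∈ s := by
    intro i
    rw [he, Module.Basis.reindex_apply]
    exact Module.Basis.ofSpan_subset hspan ⟨_, rfl⟩
  choose d hd using fun i => (hes i).1
  choose f hf using fun i => (hes i).2
  exact ⟨e, d, f, hd, hf⟩

end Pool.Agent.Helper2.BC
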