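import Pool.Agent.Helper2.BC.Defs

/-!
# Project OB, layer BC, block BC-R: the hypotheses in rank two

`center_cond`: `Z` commutes with `A ⊆ {y | [H, y] = 0}`, so `Z ∈ A`; the root vector `x` of `φ` has `[H, x] = φ H • x = 0`, so `0 = [Z, x] = φ Z • x`, `φ Z = 0`; the kernel of `φ` in `A` has dimension `1` and contains `H ≠ 0`.
`pos_cond`: `Hv, Hu` span `A` (dimension two), so `x` is a joint eigenvector of `A`; its eigenvalue on `Hv` is not `0`, so it is a root vector of a root `φ` with `φ Hv = l`, `φ Hu = m`.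
-/

set_option autoImplicit false

open Matrix Set

namespace Pool.Agent.Helper2.BC

open Pool.Agent.Helper96.SA Pool.Agent.Helper96.TO Pool.Agent.Helper35.TZ

variable {L : Type} [LieRing L] [LieAlgebra ℝ L] {N : ℕ} {θ : L ≃ₗ⁅ℝ⁆ L} {b e : Module.Basis (Fin N) ℝ L} {A : Submodule ℝ L}

theorem center_cond (hA : MaxFlat θ A) (h2 : Module.finrank ℝ A = 2) {H : A} (H0 : H ≠ 0) {φ : Module.Dual ℝ A}
    (hφ : φ ∈ rootsL A) (hφH : φ H = 0) {Z : L} (hZ : θ Z = -Z) (hc : ∀ y : L, ⁅(H : L), y⁆ = 0 → ⁅Z, y⁆ = 0) :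
    ∃ c : ℝ, Z = c • (H : L) := by
  have hZA : Z ∈ A := hA.max Z hZ fun y hy => hc y (hA.abel _ H.2 y hy)
  obtain ⟨hφ0, x, hx0, hx⟩ := hφ
  have h3 : ⁅(H : L), x⁆ = 0 := by rw [hx H, hφH, zero_smul]
  have h4 : φ ⟨Z, hZA⟩ • x = 0 := by
    rw [← hx ⟨Z, hZA⟩]
    exact hc x h3
  have h5 : φ ⟨Z, hZA⟩ = 0 := (smul_eq_zero.1 h4).resolve_right hx0
  have hF : FiniteDimensional ℝ A := Module.finite_of_finrank_pos (by rw [h2]; norm_num)
  have hr : Module.finrank ℝ (LinearMap.range φ) = 1 := by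
    have h6 : LinearMap.range φ = ⊤ := LinearMap.range_eq_top.2 (LinearMap.surjective hφ0)
    rw [h6, finrank_top, Module.finrank_self]
  have hk : Module.finrank ℝ (LinearMap.ker φ) = 1 := by
    have h7 := LinearMap.finrank_range_add_finrank_ker φ
    rw [hr, h2] at h7
    omega
  have hH' : (⟨H, LinearMap.mem_ker.2 hφH⟩ : LinearMap.ker φ) ≠ 0 := by
    intro h8
    exact H0 (congrArg Subtype.val h8)
  obtain ⟨c, hc'⟩ := (finrank_eq_one_iff_of_nonzero' _ hH').1 hk ⟨⟨Z, hZA⟩, LinearMap.mem_ker.2 h5⟩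
  refine ⟨c, ?_⟩
  have h9 := congrArg (fun t : LinearMap.ker φ => ((t : A) : L)) hc'
  exact h9.symm

theorem pos_cond (h2 : Module.finrank ℝ A = 2) {Hv Hu : A} (hli : LinearIndependent ℝ ![Hv, Hu])
    (hp : ∀ φ ∈ rootsL A, 0 < φ Hv → 0 ≤ φ Hu) {x : L} (hx : x ≠ 0) {l m : ℝ} (hl : ⁅(Hv : L), x⁆ = l • x)
    (hm : ⁅(Hu : L), x⁆ = m • x) (h0 : 0 < l) : 0 ≤ m := by
  let B : Module.Basis (Fin 2) ℝ A := basisOfLinearIndependentOfCardEqFinrank hli (by rw [h2, Fintype.card_fin])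
  have hB : ⇑B = ![Hv, Hu] := coe_basisOfLinearIndependentOfCardEqFinrank hli (by rw [h2, Fintype.card_fin])
  let φ : Module.Dual ℝ A := B.constr ℝ ![l, m]
  have hφv : φ Hv = l := by
    have h3 := B.constr_basis ℝ ![l, m] 0
    rw [hB] at h3
    exact h3
  have hφu : φ Hu = m := by
    have h3 := B.constr_basis ℝ ![l, m] 1
    rw [hB] at h3
    exact h3
  have hroot : φ ∈ rootsL A := by
    refine ⟨?_, x, hx, ?_⟩
    · intro h3
      rw [h3, LinearMap.zero_apply] at hφv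
      exact absurd hφv h0.ne
    · intro h
      have h4 : h = B.repr h 0 • Hv + B.repr h 1 • Hu := by
        have h5 := B.sum_repr h
        rw [Fin.sum_univ_two, hB] at h5
        exact h5.symm
      have h6 : φ h = B.repr h 0 * l + B.repr h 1 * m := by
        conv_lhs => rw [h4]
        rw [map_add, map_smul, map_smul, hφv, hφu, smul_eq_mul, smul_eq_mul]
      have h7 : (h : L) = B.repr h 0 • (Hv : L) + B.repr h 1 • (Hu : L) := by
        conv_lhs => rw [h4]
        rfl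
      rw [h6, h7, add_lie, smul_lie, smul_lie, hl, hm, smul_smul, smul_smul, add_smul]
  have h8 := hp φ hroot (by rw [hφv]; exact h0)
  rwa [hφu] at h8

end Pool.Agent.Helper2.BC
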