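import Pool.Agent.Helper2.BC.Exp

/-!
# Project OB, layer BC, block BC-S: contracted elements and centralizers of the sequences `exp(τ_n ad H)`

`lim_conj`: for `x ∈ es H (Iio 0)`, `x = ∑ x_i e_i` (over `d i < 0`), `exp(τ ad H) exp(ad x) exp(- τ ad H) = exp(ad (exp(τ ad H) x))` (`ex_conj`; `exp(τ ad H)` is an automorphism of `L`) `= exp(ad (∑ exp(τ d_i) x_i e_i))`, and `exp(τ d_i) → 0` for `τ → ∞`; `TT_to b` is linear, so
continuous (finite dimension), `continuous_ex`, `ex_zero`. (`ac b (ex (τ • TT_to b H)) (e i) = exp(τ d_i) • e i`: e.g. `Module.End` exponential, or the function `exp(- τ d_i) ac b (ex (τ • TT_to b H)) (e i)` is constant in `τ`, or the power series.)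
`conj_fix`: `z exp(τ ad H) z⁻¹ = exp(τ ad (z H)) = exp(τ ad H)` (`ex_conj` and `ac_lie`).
-/

set_option autoImplicit false

open Matrix Set Filter Topology

namespace Pool.Agent.Helper2.BC

open Pool.Agent.Helper96.SA Pool.Agent.Helper96.TO Pool.Agent.Helper35.TZ

variable {L : Type} [LieRing L] [LieAlgebra ℝ L] {N : ℕ} {b e : Module.Basis (Fin N) ℝ L} {H : L} {d : Fin N → ℝ}

private theorem conj_TT89 {g : GL (Fin N) ℝ} (hg : g ∈ autG b) (x : L) :
    (g : Mat N) * TT_to b x * ((g⁻¹ : GL (Fin N) ℝ) : Mat N) = TT_to b (ac b g x) := by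
  apply (toLin b b).injective
  refine LinearMap.ext fun y => ?_
  rw [toLin_mul b b b, toLin_mul b b b, LinearMap.comp_apply, LinearMap.comp_apply, toLin_TT_to,
    toLin_TT_to]
  change ac b g ⁅x, ac b g⁻¹ y⁆ = ⁅ac b g x, y⁆
  rw [ac_lie hg, ac_inv']

private theorem diag89 (hE : EB H e d) : LinearMap.toMatrix e e (LieAlgebra.ad ℝ L H) = diagonal d := by
  ext i j
  rw [LinearMap.toMatrix_apply, LieAlgebra.ad_apply, hE j, map_smul, Module.Basis.repr_self,
    Finsupp.smul_apply, Finsupp.single_apply, Matrix.diagonal_apply]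
  by_cases h : i = j
  · subst h
    simp
  · rw [if_neg h, if_neg (fun h' => h h'.symm), smul_zero]

private theorem ac_exH89 (hE : EB H e d) (τ : ℝ) :
    ac b (ex (τ • TT_to b H)) = toLin e e (diagonal fun i => Real.exp (τ * d i)) := by
  let P : (Mat N)ˣ := ⟨b.toMatrix e, e.toMatrix b, Module.Basis.toMatrix_mul_toMatrix_flip b e,
    Module.Basis.toMatrix_mul_toMatrix_flip e b⟩
  have hP : (P : Mat N) = b.toMatrix e := rfl
  have hP' : ((P⁻¹ : (Mat N)ˣ) : Mat N) = e.toMatrix b := rfl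
  have key : ∀ f : L →ₗ[ℝ] L, LinearMap.toMatrix b b f =
      (P : Mat N) * LinearMap.toMatrix e e f * ((P⁻¹ : (Mat N)ˣ) : Mat N) := by
    intro f
    rw [hP, hP']
    exact (basis_toMatrix_mul_linearMap_toMatrix_mul_basis_toMatrix b e b e f).symm
  have h1 : τ • TT_to b H = (P : Mat N) * diagonal (fun i => τ * d i) * ((P⁻¹ : (Mat N)ˣ) : Mat N) := by
    rw [TT_apply_to, key, diag89 hE]
    have h2 : (diagonal fun i => τ * d i) = τ • (diagonal d : Mat N) := by
      ext i j
      simp [Matrix.diagonal_apply]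
    rw [h2, mul_smul_comm, smul_mul_assoc]
  have h3 : NormedSpace.exp (diagonal (fun i => τ * d i) : Mat N) =
      diagonal fun i => Real.exp (τ * d i) := by
    rw [Matrix.exp_diagonal]
    congr 1
    funext i
    rw [Pi.coe_exp, Real.exp_eq_exp_ℝ]
  unfold ac
  rw [ex_coe, h1, Matrix.exp_units_conj P, h3]
  apply (LinearMap.toMatrix b b).injective
  rw [LinearMap.toMatrix_toLin, key, LinearMap.toMatrix_toLin]

private theorem ac_exH_apply89 (hE : EB H e d) (τ : ℝ) (x : L) :
    ac b (ex (τ • TT_to b H)) x = ∑ i, (Real.exp (τ * d i) * e.repr x i) • e i := by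
  rw [ac_exH89 hE]
  conv_lhs => rw [← e.sum_repr x]
  rw [map_sum]
  refine Finset.sum_congr rfl fun i _ => ?_
  rw [map_smul, Matrix.toLin_self, Finset.sum_eq_single i]
  · rw [Matrix.diagonal_apply_eq, smul_smul, mul_comm]
  · intro j _ hj
    rw [Matrix.diagonal_apply_ne _ hj, zero_smul]
  · intro h
    exact absurd (Finset.mem_univ i) h

theorem lim_conj (hE : EB H e d) {x : L} (hx : x ∈ es H (Iio 0)) {ι : Type} {l : Filter ι} {τ : ι → ℝ} (hτ : Tendsto τ l atTop) :
    Tendsto (fun n => ex (τ n • TT_to b H) * ex (TT_to b x) * (ex (τ n • TT_to b H))⁻¹) l (𝓝 1) := by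
  have h1 : ∀ n, ex (τ n • TT_to b H) * ex (TT_to b x) * (ex (τ n • TT_to b H))⁻¹ =
      ex (∑ i, (Real.exp (τ n * d i) * e.repr x i) • TT_to b (e i)) := by
    intro n
    have hg : ex (τ n • TT_to b H) ∈ autG b := by
      rw [← map_smul]
      exact autC_le b (ex_mem_autC b _)
    rw [← ex_conj, conj_TT89 hg, ac_exH_apply89 hE, map_sum]
    congr 1
    refine Finset.sum_congr rfl fun i _ => ?_
    rw [map_smul]
  simp_rw [h1]
  have h2 : Tendsto (fun n => ∑ i, (Real.exp (τ n * d i) * e.repr x i) • TT_to b (e i)) l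
      (𝓝 (∑ i : Fin N, (0 : Mat N))) := by
    refine tendsto_finsetSum _ fun i _ => ?_
    by_cases hi : d i < 0
    · have h3 : Tendsto (fun n => Real.exp (τ n * d i)) l (𝓝 0) :=
        Real.tendsto_exp_atBot.comp (hτ.atTop_mul_const_of_neg hi)
      have h4 := (h3.mul_const (e.repr x i)).smul_const (TT_to b (e i))
      rwa [zero_mul, zero_smul] at h4
    · have h3 : e.repr x i = 0 := (mem_es hE).1 hx i hi
      simp_rw [h3, mul_zero, zero_smul]
      exact tendsto_const_nhds
  rw [Finset.sum_const_zero] at h2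
  have h5 := (continuous_ex (N := N)).continuousAt (x := 0)
  have h6 := h5.tendsto.comp h2
  rw [ex_zero] at h6
  exact h6

theorem conj_fix {z : GL (Fin N) ℝ} (hz : z ∈ autG b) (hzH : ac b z H = H) (τ : ℝ) :
    ex (τ • TT_to b H) * z = z * ex (τ • TT_to b H) := by
  have h1 := conj_TT89 hz H
  rw [hzH] at h1
  have h2 : (z : Mat N) * TT_to b H = TT_to b H * (z : Mat N) := by
    have h3 : (z : Mat N) * TT_to b H * ((z⁻¹ : GL (Fin N) ℝ) : Mat N) * (z : Mat N) =
        TT_to b H * (z : Mat N) := by rw [h1]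
    rw [mul_assoc, Units.inv_mul, mul_one] at h3
    exact h3
  exact (ex_commute (by rw [mul_smul_comm, smul_mul_assoc, h2])).symm

end Pool.Agent.Helper2.BC
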