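import Pool.Agent.Helper2.BC.Defs

/-!
# Project OB, layer BC, block BC-B: the stabilizer of `q = es H (Iic 0)`

Notation: `p = ac b p`, `q = es H (Iic 0)`, `n = es H (Iio 0)`, `κ` the Killing form, `θ` the Cartan involution.
PROOF of `nil_stab`. `κ(n, q) = 0` (`es_kill`), and conversely `x ⊥ q` implies `x ∈ n`: `x = x₁ + x₂`, `x₁ ∈ n`, `x₂ ∈ es H (Ici 0)` (`es_decomp`), `θ x₂ ∈ q` (`theta_es`), so `0 = κ(x, θ x₂) = κ(x₂, θ x₂)` and `x₂ = 0` (`eq_zero_of_form h`). `p` maps `q` to `q`, hence onto `q` (injective, finite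
dimension). For `x ∈ n`, `y ∈ q`, `y = p y'` with `y' ∈ q`: `κ(p x, y) = κ(x, y') = 0` (`kill_ac`), so `p x ∈ n`.
PROOF of `stab`. `H ∈ q` (`self_mem_es`), so `p H ∈ q`, `p H = n' + Z` with `n' ∈ n`, `Z ∈ es H {0}` (`es_decomp` with `S = Iio 0`, `mem_es`). (1) `Z` commutes with every `y` with `[H, y] = 0`: `y ∈ q`, `y = p y'`, `y' ∈ q`, `[H, y'] ∈ n`, so `[p H, y] = p [H, y'] ∈ n`, `[n', y] ∈ n`, so
`[Z, y] ∈ n ∩ es H {0} = 0`. (2) `θ Z` has the same property (`θ H = - H`, `θ` applied to (1)), so `Zₚ = (Z - θ Z) / 2` is `c H` by the hypothesis `hc`, and `Zₖ = (Z + θ Z) / 2` is fixed by `θ`. `Z = Zₖ + c H`.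
(3) `c = 1`. Let `τ(x) = ∑_{i, d i < 0} e.repr [x, e i] i`, `= trace(π ∘ ad x)` where `π` is the projection on `n` along `es H (Ici 0)` (`π (e i) = e i` or `0`; `LinearMap.trace_eq_matrix_trace ℝ e`). `τ(H) = ∑_{d i < 0} d i`; `τ(n') = 0` (`EB.brk`: `[e j, e i]` with `d j < 0` has no
component `i`); `τ(Zₖ) = 0`, even `e.repr [Zₖ, e i] i = 0`, since `e` is orthonormal: `e.repr [Z, e i] i = - κ([Z, e i], θ (e i))` (`coord_to he`), and `κ([Z, x], θ x) = - κ(x, [Z, θ x]) = - κ(x, θ [Z, x]) = - κ(θ x, [Z, x])` for `θ Z = Z`.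
`τ(p H) = trace(π p ad(H) p⁻¹) = trace(p⁻¹ π p ad(H)) = ∑ i, d i * e.repr (p⁻¹ π p (e i)) i`; for `d i < 0`: `p (e i) ∈ n` (`nil_stab`), `p⁻¹ π p (e i) = e i`; for `0 ≤ d i`: `p⁻¹ (π p (e i)) ∈ p⁻¹ n = n` has no component `i` (`nil_stab` for `p⁻¹`, or `p : n → n` is onto). So
`τ(p H) = τ(H)`, and `τ(p H) = c τ(H)`, `τ(H) < 0`: there is `i` with `d i < 0`, since `ad H ≠ 0` (`H ≠ 0`, `eq_zero_of_bracket h`) and `θ` exchanges the eigenvalues (`theta_es`). So `c = 1`.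
(4) `κ(p H, p H) = κ(H, H)`, and `κ(p H, p H) = κ(Z, Z)` (`es_kill`) `= κ(Zₖ, Zₖ) + 2 κ(Zₖ, H) + κ(H, H)`, `κ(Zₖ, H) = κ(θ Zₖ, θ H) = - κ(Zₖ, H) = 0`. So `κ(Zₖ, θ Zₖ) = κ(Zₖ, Zₖ) = 0`, `Zₖ = 0` (`eq_zero_of_form h`). So `p H - H = n' ∈ n`.
-/

set_option autoImplicit false

open Matrix Set

namespace Pool.Agent.Helper2.BC

open Pool.Agent.Helper96.SA Pool.Agent.Helper96.TO Pool.Agent.Helper35.TZ

variable {L : Type} [LieRing L] [LieAlgebra ℝ L] {N : ℕ} {θ : L ≃ₗ⁅ℝ⁆ L} {b e : Module.Basis (Fin N) ℝ L} {H : L} {d : Fin N → ℝ}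

private theorem mem_nil56 (h : CartanBasis θ b) (hE : EB H e d) (hH : θ H = -H) {x : L}
    (hx : ∀ y ∈ es H (Iic 0), killingForm ℝ L x y = 0) : x ∈ es H (Iio 0) := by
  obtain ⟨x₁, hx₁, x₂, hx₂, hxe⟩ := es_decomp hE (Iio 0) x
  have h1 : θ x₂ ∈ es H (Iic 0) := by
    refine es_mono ?_ (theta_es hH hx₂)
    intro t ht
    have ht' : ¬ (-t < 0) := ht
    rw [mem_Iic]
    linarith
  have h2 := hx _ h1
  have h3 : killingForm ℝ L x₁ (θ x₂) = 0 := by
    refine es_kill hE hx₁ h1 ?_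
    intro s hs t ht
    rw [mem_Iio] at hs
    rw [mem_Iic] at ht
    linarith
  rw [hxe, map_add, LinearMap.add_apply, h3, zero_add] at h2
  have h4 := eq_zero_of_form h h2
  rw [hxe, h4, add_zero]
  exact hx₁

theorem nil_stab (h : CartanBasis θ b) (hE : EB H e d) (hH : θ H = -H) {p : GL (Fin N) ℝ} (hp : p ∈ autG b)
    (hq : ∀ x ∈ es H (Iic 0), ac b p x ∈ es H (Iic 0)) : ∀ x ∈ es H (Iio 0), ac b p x ∈ es H (Iio 0) := by
  haveI : Module.Finite ℝ L := Module.Finite.of_basis e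
  have hinj : Function.Injective ((ac b p).restrict hq) := by
    intro x y hxy
    have h1 : ac b p (x : L) = ac b p (y : L) := by
      have h2 := congrArg Subtype.val hxy
      simpa only [LinearMap.restrict_coe_apply] using h2
    apply Subtype.ext
    rw [← ac_inv (b := b) p (x : L), h1, ac_inv]
  have hsurj : Function.Surjective ((ac b p).restrict hq) := LinearMap.injective_iff_surjective.1 hinj
  intro x hx
  refine mem_nil56 h hE hH ?_
  intro y hy
  obtain ⟨y', hy'⟩ := hsurj ⟨y, hy⟩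
  have h1 : ac b p (y' : L) = y := by
    have h2 := congrArg Subtype.val hy'
    simpa only [LinearMap.restrict_coe_apply] using h2
  rw [← h1, kill_ac hp]
  refine es_kill hE hx y'.2 ?_
  intro s hs t ht
  rw [mem_Iio] at hs
  rw [mem_Iic] at ht
  linarith

private theorem st21_inv {p : GL (Fin N) ℝ} (V : Submodule ℝ L) (hV : ∀ x ∈ V, ac b p x ∈ V) :
    ∀ x ∈ V, ac b p⁻¹ x ∈ V := by
  have : Module.Finite ℝ L := Module.Finite.of_basis b
  intro x hx
  have hinj : Function.Injective ((ac b p).restrict hV) := by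
    intro u v huv
    have h1 : ac b p (u : L) = ac b p (v : L) := congrArg Subtype.val huv
    have h2 := congrArg (ac b p⁻¹) h1
    rw [ac_inv, ac_inv] at h2
    exact Subtype.ext h2
  obtain ⟨y, hy⟩ := (LinearMap.injective_iff_surjective.1 hinj) ⟨x, hx⟩
  have h1 : ac b p (y : L) = x := congrArg Subtype.val hy
  rw [← h1, ac_inv]
  exact y.2

private theorem st21_mem0 (hE : EB H e d) {y : L} : y ∈ es H {0} ↔ ⁅H, y⁆ = 0 := by
  rw [mem_es hE]
  constructor
  · intro h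
    apply e.repr.injective
    rw [map_zero]
    ext i
    rw [hE.coord]
    by_cases hi : d i = 0
    · rw [hi, zero_mul]; rfl
    · rw [h i hi, mul_zero]; rfl
  · intro h i hi
    have h1 := hE.coord y i
    rw [h, map_zero] at h1
    have h2 : d i * e.repr y i = 0 := h1.symm
    exact (mul_eq_zero.1 h2).resolve_left hi

private noncomputable def st21_pi (e : Module.Basis (Fin N) ℝ L) (d : Fin N → ℝ) : L →ₗ[ℝ] L :=
  e.constr ℝ (fun i => if d i < 0 then e i else 0)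

private theorem st21_pi_repr (x : L) (i : Fin N) :
    e.repr (st21_pi e d x) i = if d i < 0 then e.repr x i else 0 := by
  unfold st21_pi
  rw [Module.Basis.constr_apply_fintype, map_sum, Finsupp.finsetSum_apply, Finset.sum_eq_single i]
  · rw [map_smul, Finsupp.smul_apply]
    split_ifs
    · rw [Module.Basis.repr_self, Finsupp.single_eq_same, smul_eq_mul, mul_one]
      rfl
    · rw [map_zero]
      exact mul_zero _
  · intro j _ hj
    rw [map_smul, Finsupp.smul_apply]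
    split_ifs
    · rw [Module.Basis.repr_self, Finsupp.single_eq_of_ne (Ne.symm hj), smul_zero]
    · rw [map_zero]
      exact mul_zero _
  · intro hi
    exact absurd (Finset.mem_univ i) hi

private theorem st21_pi_mem (hE : EB H e d) (x : L) : st21_pi e d x ∈ es H (Iio 0) := by
  rw [mem_es hE]
  intro i hi
  rw [st21_pi_repr, if_neg (show ¬ d i < 0 from hi)]

private theorem st21_pi_id (hE : EB H e d) {x : L} (hx : x ∈ es H (Iio 0)) : st21_pi e d x = x := by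
  apply e.repr.injective
  ext i
  rw [st21_pi_repr]
  by_cases hi : d i < 0
  · rw [if_pos hi]
  · rw [if_neg hi, (mem_es hE).1 hx i hi]

private theorem st21_trace (x : L) :
    LinearMap.trace ℝ L (st21_pi e d ∘ₗ LieAlgebra.ad ℝ L x) =
      ∑ i, if d i < 0 then e.repr ⁅x, e i⁆ i else 0 := by
  rw [LinearMap.trace_eq_matrix_trace ℝ e, Matrix.trace]
  refine Finset.sum_congr rfl fun i _ => ?_
  rw [Matrix.diag_apply, LinearMap.toMatrix_apply, LinearMap.comp_apply, LieAlgebra.ad_apply, st21_pi_repr]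

/-- the trace of `ad (p H)` on the negative part -/
private theorem st21_conj (hE : EB H e d) {p : GL (Fin N) ℝ} (hp : p ∈ autG b)
    (hn : ∀ x ∈ es H (Iio 0), ac b p x ∈ es H (Iio 0)) :
    LinearMap.trace ℝ L (st21_pi e d ∘ₗ LieAlgebra.ad ℝ L (ac b p H)) =
      LinearMap.trace ℝ L (st21_pi e d ∘ₗ LieAlgebra.ad ℝ L H) := by
  have hn' := st21_inv (es H (Iio 0)) hn
  have had : (LieAlgebra.ad ℝ L (ac b p H) : L →ₗ[ℝ] L) =
      ac b p ∘ₗ (LieAlgebra.ad ℝ L H) ∘ₗ ac b p⁻¹ := by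
    refine LinearMap.ext fun y => ?_
    rw [LinearMap.comp_apply, LinearMap.comp_apply, LieAlgebra.ad_apply, LieAlgebra.ad_apply, ac_lie hp, ac_inv']
  have hadH : ∀ y : L, ⁅H, st21_pi e d y⁆ ∈ es H (Iio 0) := fun y =>
    es_lie hE (self_mem_es H (mem_singleton (0 : ℝ))) (st21_pi_mem hE y) (by
      intro s hs t ht
      rw [mem_singleton_iff.1 hs, zero_add]
      exact ht)
  obtain ⟨π, hπ⟩ : ∃ π : L →ₗ[ℝ] L, π = st21_pi e d := ⟨_, rfl⟩
  obtain ⟨A, hA⟩ : ∃ A : L →ₗ[ℝ] L, A = LieAlgebra.ad ℝ L H := ⟨_, rfl⟩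
  obtain ⟨P, hP⟩ : ∃ P : L →ₗ[ℝ] L, P = ac b p := ⟨_, rfl⟩
  obtain ⟨P', hP'⟩ : ∃ P' : L →ₗ[ℝ] L, P' = ac b p⁻¹ := ⟨_, rfl⟩
  rw [had, ← hπ, ← hA, ← hP, ← hP']
  have e1 : LinearMap.trace ℝ L (π ∘ₗ (P ∘ₗ A ∘ₗ P')) = LinearMap.trace ℝ L (P' ∘ₗ π ∘ₗ P ∘ₗ A) := by
    have := LinearMap.trace_mul_comm ℝ (π ∘ₗ P ∘ₗ A) P'
    exact this
  have e2 : P' ∘ₗ π ∘ₗ P ∘ₗ A = π ∘ₗ (P' ∘ₗ π ∘ₗ P ∘ₗ A) := by
    refine LinearMap.ext fun y => ?_
    simp only [LinearMap.comp_apply]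
    have h1 : P' (π (P (A y))) ∈ es H (Iio 0) := by
      rw [hP', hπ]
      exact hn' _ (st21_pi_mem hE _)
    conv_rhs => rw [hπ, st21_pi_id hE (by rw [← hπ]; exact h1)]
    rw [hπ]
  have e3 : LinearMap.trace ℝ L (π ∘ₗ (P' ∘ₗ π ∘ₗ P ∘ₗ A)) =
      LinearMap.trace ℝ L ((P' ∘ₗ π ∘ₗ P ∘ₗ A) ∘ₗ π) :=
    LinearMap.trace_mul_comm ℝ π (P' ∘ₗ π ∘ₗ P ∘ₗ A)
  have e4 : (P' ∘ₗ π ∘ₗ P ∘ₗ A) ∘ₗ π = A ∘ₗ π := by
    refine LinearMap.ext fun y => ?_
    simp only [LinearMap.comp_apply]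
    have h1 : A (π y) ∈ es H (Iio 0) := by
      rw [hA, hπ]
      exact hadH y
    have h2 : P (A (π y)) ∈ es H (Iio 0) := by
      rw [hP]
      exact hn _ h1
    have h3 : π (P (A (π y))) = P (A (π y)) := by
      conv_lhs => rw [hπ, st21_pi_id hE (by rw [← hπ]; exact h2)]
      rw [hπ]
    rw [h3, hP, hP', ac_inv]
  have e5 : LinearMap.trace ℝ L (A ∘ₗ π) = LinearMap.trace ℝ L (π ∘ₗ A) :=
    LinearMap.trace_mul_comm ℝ A π
  rw [e1, e2, e3, e4, e5]

private theorem st21_tr_add (x y : L) :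
    LinearMap.trace ℝ L (st21_pi e d ∘ₗ LieAlgebra.ad ℝ L (x + y)) =
      LinearMap.trace ℝ L (st21_pi e d ∘ₗ LieAlgebra.ad ℝ L x) +
        LinearMap.trace ℝ L (st21_pi e d ∘ₗ LieAlgebra.ad ℝ L y) := by
  rw [st21_trace, st21_trace, st21_trace, ← Finset.sum_add_distrib]
  refine Finset.sum_congr rfl fun i _ => ?_
  split_ifs
  · rw [add_lie, map_add, Finsupp.add_apply]
  · rw [add_zero]

private theorem st21_tr_smul (c : ℝ) (x : L) :
    LinearMap.trace ℝ L (st21_pi e d ∘ₗ LieAlgebra.ad ℝ L (c • x)) =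
      c * LinearMap.trace ℝ L (st21_pi e d ∘ₗ LieAlgebra.ad ℝ L x) := by
  rw [st21_trace, st21_trace, Finset.mul_sum]
  refine Finset.sum_congr rfl fun i _ => ?_
  split_ifs
  · rw [smul_lie, map_smul, Finsupp.smul_apply, smul_eq_mul]
  · rw [mul_zero]

private theorem st21_tr_neg (hE : EB H e d) {x : L} (hx : x ∈ es H (Iio 0)) :
    LinearMap.trace ℝ L (st21_pi e d ∘ₗ LieAlgebra.ad ℝ L x) = 0 := by
  rw [st21_trace]
  refine Finset.sum_eq_zero fun i _ => ?_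
  split_ifs with hi
  · conv_lhs => rw [← e.sum_repr x, sum_lie]
    rw [map_sum, Finsupp.finsetSum_apply]
    refine Finset.sum_eq_zero fun j _ => ?_
    rw [smul_lie, map_smul, Finsupp.smul_apply, smul_eq_mul]
    by_cases hj : d j < 0
    · rw [hE.brk (i := j) (j := i) (k := i) (by intro h; linarith), mul_zero]
    · rw [(mem_es hE).1 hx j hj, zero_mul]
  · rfl

private theorem st21_tr_fix (he : CartanBasis θ e) {Z : L} (hZ : θ Z = Z) :
    LinearMap.trace ℝ L (st21_pi e d ∘ₗ LieAlgebra.ad ℝ L Z) = 0 := by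
  rw [st21_trace]
  refine Finset.sum_eq_zero fun i _ => ?_
  split_ifs
  · rw [coord_to he, neg_eq_zero]
    have h1 : killingForm ℝ L ⁅Z, e i⁆ (θ (e i)) = -killingForm ℝ L (e i) ⁅Z, θ (e i)⁆ :=
      LieModule.traceForm_apply_lie_apply' ℝ L L Z (e i) (θ (e i))
    have h2 : ⁅Z, θ (e i)⁆ = θ ⁅Z, e i⁆ := by rw [LieEquiv.map_lie, hZ]
    have h3 : killingForm ℝ L (e i) (θ ⁅Z, e i⁆) = killingForm ℝ L (θ (e i)) ⁅Z, e i⁆ := by
      rw [← LieAlgebra.killingForm_of_equiv_apply θ (e i) (θ ⁅Z, e i⁆), he.invol]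
    have h4 : killingForm ℝ L (θ (e i)) ⁅Z, e i⁆ = killingForm ℝ L ⁅Z, e i⁆ (θ (e i)) :=
      LieModule.traceForm_comm ℝ L L _ _
    rw [h2, h3, h4] at h1
    linarith
  · rfl

theorem stab (h : CartanBasis θ b) (he : CartanBasis θ e) (hE : EB H e d) (hH : θ H = -H) (H0 : H ≠ 0)
    (hc : ∀ Z : L, θ Z = -Z → (∀ y : L, ⁅H, y⁆ = 0 → ⁅Z, y⁆ = 0) → ∃ c : ℝ, Z = c • H) {p : GL (Fin N) ℝ} (hp : p ∈ autG b)
    (hq : ∀ x ∈ es H (Iic 0), ac b p x ∈ es H (Iic 0)) : ac b p H - H ∈ es H (Iio 0) := by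
  have hn := nil_stab h hE hH hp hq
  have hq' := st21_inv (es H (Iic 0)) hq
  have hHq : H ∈ es H (Iic 0) := self_mem_es H (by simp)
  have hpH : ac b p H ∈ es H (Iic 0) := hq H hHq
  obtain ⟨n', hn', Z, hZ', hdec⟩ := es_decomp hE (Iio 0) (ac b p H)
  have hZq : Z ∈ es H (Iic 0) := by
    have h1 : Z = ac b p H - n' := by rw [hdec]; abel
    rw [h1]
    exact Submodule.sub_mem _ hpH (es_mono (fun x (hx : x < 0) => hx.le) hn')
  have hZ0 : Z ∈ es H {0} := by
    rw [mem_es hE]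
    intro i hi
    rcases lt_trichotomy (d i) 0 with h1 | h1 | h1
    · exact (mem_es hE).1 hZ' i (fun h2 => h2 h1)
    · exact absurd h1 hi
    · exact (mem_es hE).1 hZq i (fun h2 => absurd h1 (not_lt.2 (show d i ≤ 0 from h2)))
  -- `Z` commutes with the centralizer of `H`
  have hZc : ∀ y : L, ⁅H, y⁆ = 0 → ⁅Z, y⁆ = 0 := by
    intro y hy
    have hy0 : y ∈ es H {0} := (st21_mem0 hE).2 hy
    have hyq : y ∈ es H (Iic 0) := es_mono (fun x (hx : x = 0) => hx.le) hy0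
    have hy' := hq' y hyq
    have h1 : ⁅H, ac b p⁻¹ y⁆ ∈ es H (Iio 0) := by
      rw [mem_es hE]
      intro i hi
      rw [hE.coord]
      rcases eq_or_lt_of_le (not_lt.1 (show ¬ d i < 0 from hi)) with h2 | h2
      · rw [← h2, zero_mul]
      · rw [(mem_es hE).1 hy' i (fun h3 => absurd h2 (not_lt.2 (show d i ≤ 0 from h3))), mul_zero]
    have h2 : ⁅ac b p H, y⁆ ∈ es H (Iio 0) := by
      have h3 := hn _ h1
      rwa [ac_lie hp, ac_inv'] at h3
    have h3 : ⁅n', y⁆ ∈ es H (Iio 0) := es_lie hE hn' hy0 (by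
      intro s hs t ht
      rw [mem_singleton_iff.1 ht, add_zero]
      exact hs)
    have h4 : ⁅Z, y⁆ ∈ es H (Iio 0) := by
      have h5 : ⁅Z, y⁆ = ⁅ac b p H, y⁆ - ⁅n', y⁆ := by rw [hdec, add_lie]; abel
      rw [h5]
      exact Submodule.sub_mem _ h2 h3
    have h5 : ⁅Z, y⁆ ∈ es H {0} := es_lie hE hZ0 hy0 (by
      intro s hs t ht
      rw [mem_singleton_iff.1 hs, mem_singleton_iff.1 ht, add_zero]
      exact mem_singleton _)
    exact es_disj hE h4 h5 (by
      rw [Set.disjoint_singleton_right]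
      exact fun (hlt : (0 : ℝ) < 0) => lt_irrefl _ hlt)
  have hθZc : ∀ y : L, ⁅H, y⁆ = 0 → ⁅θ Z, y⁆ = 0 := by
    intro y hy
    have h1 : ⁅H, θ y⁆ = 0 := by
      have h2 : θ ⁅H, y⁆ = 0 := by rw [hy, map_zero]
      rw [LieEquiv.map_lie, hH, neg_lie, neg_eq_zero] at h2
      exact h2
    have h2 := congrArg θ (hZc _ h1)
    rw [LieEquiv.map_lie, h.invol, map_zero] at h2
    exact h2
  obtain ⟨c, hcc⟩ := hc ((1 / 2 : ℝ) • (Z - θ Z)) (by
    rw [map_smul, map_sub, h.invol, ← smul_neg, neg_sub]) (by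
    intro y hy
    rw [smul_lie, sub_lie, hZc y hy, hθZc y hy, sub_zero, smul_zero])
  obtain ⟨Zk, hZk⟩ : ∃ Zk : L, Zk = (1 / 2 : ℝ) • (Z + θ Z) := ⟨_, rfl⟩
  have hθk : θ Zk = Zk := by
    rw [hZk, map_smul, map_add, h.invol, add_comm]
  have hZsum : Z = Zk + c • H := by
    rw [← hcc, hZk, ← smul_add]
    have : Z + θ Z + (Z - θ Z) = (2 : ℝ) • Z := by rw [two_smul]; abel
    rw [this, smul_smul]
    norm_num
  -- `c = 1`
  have hneg : ∃ i, d i < 0 := by
    by_contra hcon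
    push Not at hcon
    apply H0
    apply eq_zero_of_bracket h
    intro w
    have hd : ∀ i, d i = 0 := by
      intro i
      by_contra hi
      have hi' : 0 < d i := lt_of_le_of_ne (hcon i) (Ne.symm hi)
      have h1 : e i ∈ es H (Ioi 0) := hE.mem i hi'
      have h2 := theta_es hH h1
      have h3 : θ (e i) = 0 := by
        apply e.repr.injective
        rw [map_zero]
        ext j
        refine (mem_es hE).1 h2 j ?_
        intro h4
        have h5 : 0 < -d j := h4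
        linarith [hcon j]
      have h4 : e i = 0 := by
        have h5 := congrArg θ h3
        rwa [h.invol, map_zero] at h5
      exact e.ne_zero i h4
    apply e.repr.injective
    rw [map_zero]
    ext i
    rw [hE.coord, hd i, zero_mul]
    rfl
  have hτH : LinearMap.trace ℝ L (st21_pi e d ∘ₗ LieAlgebra.ad ℝ L H) < 0 := by
    rw [st21_trace]
    have h1 : ∀ i, (if d i < 0 then e.repr ⁅H, e i⁆ i else 0) = if d i < 0 then d i else 0 := by
      intro i
      split_ifs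
      · rw [hE.coord, Module.Basis.repr_self, Finsupp.single_eq_same, mul_one]
      · rfl
    rw [Finset.sum_congr rfl fun i _ => h1 i]
    obtain ⟨i, hi⟩ := hneg
    refine Finset.sum_neg' (fun j _ => ?_) ⟨i, Finset.mem_univ i, ?_⟩
    · split_ifs with hj
      · exact hj.le
      · exact le_rfl
    · rw [if_pos hi]
      exact hi
  have hc1 : c = 1 := by
    have h1 := st21_conj hE hp hn
    rw [hdec, hZsum, st21_tr_add, st21_tr_add, st21_tr_smul, st21_tr_neg hE hn', st21_tr_fix he hθk] at h1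
    have h2 : (c - 1) * LinearMap.trace ℝ L (st21_pi e d ∘ₗ LieAlgebra.ad ℝ L H) = 0 := by linarith
    rcases mul_eq_zero.1 h2 with h3 | h3
    · linarith
    · exact absurd h3 hτH.ne
  rw [hc1, one_smul] at hZsum
  -- `Zk = 0`
  have k1 : killingForm ℝ L n' n' = 0 := es_kill hE hn' hn' (by
    intro s hs t ht
    have hs' : s < 0 := hs
    have ht' : t < 0 := ht
    linarith)
  have k2 : killingForm ℝ L n' Z = 0 := es_kill hE hn' hZ0 (by
    intro s hs t ht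
    have hs' : s < 0 := hs
    rw [mem_singleton_iff.1 ht, add_zero]
    exact hs'.ne)
  have k3 : killingForm ℝ L Z n' = 0 := by rw [LieModule.traceForm_comm]; exact k2
  have k4 : killingForm ℝ L Zk H = 0 := by
    have h1 := LieAlgebra.killingForm_of_equiv_apply θ Zk H
    rw [hθk, hH, map_neg] at h1
    linarith
  have k5 : killingForm ℝ L H Zk = 0 := by rw [LieModule.traceForm_comm]; exact k4
  have k6 : killingForm ℝ L Zk Zk = 0 := by
    have h1 := kill_ac hp H H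
    rw [hdec] at h1
    simp only [map_add, LinearMap.add_apply] at h1
    rw [k1, k2, k3, hZsum] at h1
    simp only [map_add, LinearMap.add_apply] at h1
    rw [k4, k5] at h1
    linarith
  have hZk0 : Zk = 0 := eq_zero_of_form h (by rw [hθk]; exact k6)
  rw [hdec, hZsum, hZk0, zero_add, add_sub_cancel_right]
  exact hn'

end Pool.Agent.Helper2.BC
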