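import Pool.Agent.Helper2.BC.Defs

/-!
# Project OB, layer BC, block BC-C: transversality

PROOF of `trv_ex`. `q = es H (Iic 0)`, `n₊ = es H (Ioi 0)`, `L = q ⊕ n₊` (`es_decomp`, `es_disj`). The linear map `q → L / n₊`, `x ↦ g x`, is injective (`Tv`), and the dimensions are equal, so it is onto (or: the linear map `x ↦ π (g (π x)) + (x - π x)` on `L`, `π` the projection on `q` along `n₊`,
is injective, hence surjective; solve `= H`). So there is `x ∈ q` with `g x ∈ H + n₊`.
PROOF of `trv_stab`. Let `y ∈ q`, `w = g y`; `W = g q` is a subspace invariant under `ad H`, since `[H, g y] = [g x, g y] = g [x, y]` and `[x, y] ∈ q` (`es_lie`; `ac_lie`). So it contains the components of `w` in the eigenspaces of `ad H` (e.g. `Module.End` : a subspace which is invariant under a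
diagonalizable operator is the sum of its intersections with the eigenspaces: `Submodule.eq_iSup_inf_genEigenspace` or `Submodule.inf_iSup_genEigenspace`, or apply the polynomial `∏ (X - l)` over the eigenvalues `l ≤ 0` of `ad H` in the basis `e`: the result is in `W ∩ n₊`, so it is `0` by
`Tv`; its `i`-th coordinate is `∏ (d i - l)` times the `i`-th coordinate of `w`, and the product is not `0` for `0 < d i`). So `e.repr w i = 0` for `0 < d i`.
-/

set_option autoImplicit false

open Matrix Set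

namespace Pool.Agent.Helper2.BC

open Pool.Agent.Helper96.SA Pool.Agent.Helper96.TO Pool.Agent.Helper35.TZ

variable {L : Type} [LieRing L] [LieAlgebra ℝ L] {N : ℕ} {b e : Module.Basis (Fin N) ℝ L} {H : L} {d : Fin N → ℝ}

open Classical in
private theorem proj99 (hE : EB H e d) : ∃ P : L →ₗ[ℝ] L, (∀ x, P x ∈ es H (Iic 0)) ∧
    (∀ x, x - P x ∈ es H (Ioi 0)) := by
  refine ⟨e.constr ℝ (fun i => if d i ≤ 0 then e i else 0), fun x => ?_, fun x => ?_⟩
  · rw [Module.Basis.constr_apply_fintype]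
    refine Submodule.sum_mem _ fun i _ => ?_
    split_ifs with hi
    · exact Submodule.smul_mem _ _ (hE.mem i hi)
    · rw [smul_zero]; exact Submodule.zero_mem _
  · rw [Module.Basis.constr_apply_fintype]
    have h1 : x - ∑ i, e.equivFun x i • (if d i ≤ 0 then e i else 0) =
        ∑ i, e.equivFun x i • (if d i ≤ 0 then 0 else e i) := by
      rw [sub_eq_iff_eq_add, ← Finset.sum_add_distrib]
      conv_lhs => rw [← e.sum_equivFun x]
      refine Finset.sum_congr rfl fun i _ => ?_
      split_ifs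
      · rw [smul_zero, zero_add]
      · rw [smul_zero, add_zero]
    rw [h1]
    refine Submodule.sum_mem _ fun i _ => ?_
    split_ifs with hi
    · rw [smul_zero]; exact Submodule.zero_mem _
    · exact Submodule.smul_mem _ _ (hE.mem i (not_le.1 hi))

private theorem disj99 : Disjoint (Iic (0 : ℝ)) (Ioi 0) := by
  rw [Set.disjoint_left]
  intro a ha hb
  exact absurd (Set.mem_Iic.1 ha) (not_le.2 (Set.mem_Ioi.1 hb))

theorem trv_ex (hE : EB H e d) {g : GL (Fin N) ℝ} (hT : Tv b H g) : ∃ x ∈ es H (Iic 0), ac b g x - H ∈ es H (Ioi 0) := by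
  obtain ⟨P, hP1, hP2⟩ := proj99 hE
  have : FiniteDimensional ℝ L := Module.Basis.finiteDimensional_of_finite e
  have hP3 : ∀ x, P x = 0 → x ∈ es H (Ioi 0) := by
    intro x hx
    have := hP2 x
    rwa [hx, sub_zero] at this
  have hP4 : ∀ x y, x ∈ es H (Iic 0) → y ∈ es H (Ioi 0) → P (x + y) = x := by
    intro x y hx hy
    have h1 := hP2 (x + y)
    have h2 := hP1 (x + y)
    have h3 : P (x + y) - x ∈ es H (Ioi 0) := by
      have h4 : P (x + y) - x = y - (x + y - P (x + y)) := by abel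
      rw [h4]
      exact Submodule.sub_mem _ hy h1
    exact sub_eq_zero.1 (es_disj hE (Submodule.sub_mem _ h2 hx) h3 disj99)
  obtain ⟨f, hf⟩ : ∃ f : L →ₗ[ℝ] L, ∀ x, f x = P (ac b g (P x)) + (x - P x) :=
    ⟨P ∘ₗ ac b g ∘ₗ P + (LinearMap.id - P), fun x => rfl⟩
  have hf1 : ∀ x, P (f x) = P (ac b g (P x)) := fun x => by
    rw [hf]; exact hP4 _ _ (hP1 _) (hP2 _)
  have hinj : Function.Injective f := by
    rw [injective_iff_map_eq_zero]
    intro x hx
    have h1 : P (ac b g (P x)) = 0 := by rw [← hf1, hx, map_zero]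
    have h2 : P x = 0 := hT _ (hP1 x) (hP3 _ h1)
    have h3 := hf x
    rw [hx, h1, h2, zero_add, sub_zero] at h3
    exact h3.symm
  obtain ⟨x, hx⟩ := LinearMap.surjective_of_injective hinj H
  refine ⟨P x, hP1 x, ?_⟩
  have hH : P H = H := by
    have := hP4 H 0 (self_mem_es H (Set.mem_Iic.2 le_rfl)) (Submodule.zero_mem _)
    rwa [add_zero] at this
  have h1 : P (ac b g (P x)) = H := by rw [← hf1, hx, hH]
  have h2 := hP2 (ac b g (P x))
  rwa [h1] at h2

private theorem poly99 (hE : EB H e d) (W : Submodule ℝ L) (hW : ∀ w ∈ W, ⁅H, w⁆ ∈ W) {w : L}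
    (hw : w ∈ W) (Λ : Finset ℝ) :
    ∃ w' ∈ W, ∀ i, e.repr w' i = (∏ l ∈ Λ, (d i - l)) * e.repr w i := by
  classical
  induction Λ using Finset.induction_on with
  | empty => exact ⟨w, hw, fun i => by rw [Finset.prod_empty, one_mul]⟩
  | insert l Λ hl ih =>
    obtain ⟨w', hw', h⟩ := ih
    refine ⟨⁅H, w'⁆ - l • w', Submodule.sub_mem _ (hW _ hw') (Submodule.smul_mem _ _ hw'),
      fun i => ?_⟩
    rw [map_sub, Finsupp.sub_apply, hE.coord, map_smul, Finsupp.smul_apply, smul_eq_mul, h i,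
      Finset.prod_insert hl]
    ring

theorem trv_stab (hE : EB H e d) {g : GL (Fin N) ℝ} (hg : g ∈ autG b) (hT : Tv b H g) {x : L} (hx : x ∈ es H (Iic 0))
    (hgx : ac b g x = H) : ∀ y ∈ es H (Iic 0), ac b g y ∈ es H (Iic 0) := by
  classical
  intro y hy
  have hW : ∀ w ∈ (es H (Iic 0)).map (ac b g), ⁅H, w⁆ ∈ (es H (Iic 0)).map (ac b g) := by
    rintro _ ⟨z, hz, rfl⟩
    refine ⟨⁅x, z⁆, ?_, ?_⟩
    · exact es_lie hE hx hz fun s hs t ht => Set.mem_Iic.2
        (add_nonpos (Set.mem_Iic.1 hs) (Set.mem_Iic.1 ht))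
    · rw [ac_lie hg, hgx]
  obtain ⟨w', hw', h⟩ := poly99 hE _ hW (Submodule.mem_map_of_mem (f := ac b g) hy)
    ((Finset.univ.filter fun i => d i ≤ 0).image d)
  obtain ⟨z, hz, rfl⟩ := hw'
  have h1 : ac b g z ∈ es H (Ioi 0) := by
    rw [mem_es hE]
    intro i hi
    have hi' : d i ≤ 0 := not_lt.1 fun hcon => hi (Set.mem_Ioi.2 hcon)
    rw [h i, Finset.prod_eq_zero (i := d i), zero_mul]
    · exact Finset.mem_image_of_mem _ (Finset.mem_filter.2 ⟨Finset.mem_univ _, hi'⟩)
    · exact sub_self _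
  have h2 : z = 0 := hT z hz h1
  rw [mem_es hE]
  intro i hi
  have hi' : 0 < d i := not_le.1 fun hcon => hi (Set.mem_Iic.2 hcon)
  have h3 := h i
  rw [h2, map_zero, map_zero, Finsupp.zero_apply] at h3
  rcases mul_eq_zero.1 h3.symm with h4 | h4
  · exfalso
    obtain ⟨l, hl, h5⟩ := Finset.prod_eq_zero_iff.1 h4
    obtain ⟨j, hj, rfl⟩ := Finset.mem_image.1 hl
    have h6 := (Finset.mem_filter.1 hj).2
    linarith
  · exact h4

end Pool.Agent.Helper2.BC
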