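import Pool.Agent.Helper2.BC.Rem
import Pool.Agent.Helper2.BC.Stab
import Pool.Agent.Helper2.BC.Trv
import Pool.Agent.Helper2.BC.Dns
import Pool.Agent.Helper2.BC.JB
import Pool.Agent.Helper2.BC.JB2
import Pool.Agent.Helper2.BC.Rk2
import Pool.Agent.Helper2.BC.Seq

/-!
# Project OB, layer BC: the big cell is dense

`dense_prod`: `Z(H) U₋ U₊` is dense in `autC b`. PROOF: `dns` for `g⁻¹`. Let `k ∈ autC b` with `Tv b H k`. `trv_ex`: `x ∈ q` with `k x = H + n`, `n ∈ n₊`; `rem_pos`: `u₁ (H + n) = H`, `u₁ ∈ U₊`. `u₁ k` is transversal (`UU_es`), so it preserves `q` (`trv_stab`) and `u₁ k H = H + n'`, `n' ∈ n₋`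
(`stab`); `rem_neg`: `u₂ (H + n') = H`. `z = u₂ u₁ k` fixes `H`, `k⁻¹ = z⁻¹ u₂ u₁`.
-/

set_option autoImplicit false

open Matrix Set Filter Topology

namespace Pool.Agent.Helper2.BC

open Pool.Agent.Helper96.SA Pool.Agent.Helper96.TO Pool.Agent.Helper35.TZ

variable {L : Type} [LieRing L] [LieAlgebra ℝ L] {N : ℕ} {θ : L ≃ₗ⁅ℝ⁆ L} {b e : Module.Basis (Fin N) ℝ L} {H : L} {d : Fin N → ℝ}

theorem dense_prod (h : CartanBasis θ b) (hE : EB H e d) (hH : θ H = -H) (H0 : H ≠ 0)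
    (hc : ∀ Z : L, θ Z = -Z → (∀ y : L, ⁅H, y⁆ = 0 → ⁅Z, y⁆ = 0) → ∃ c : ℝ, Z = c • H) {g : GL (Fin N) ℝ} (hg : g ∈ autC b) :
    g ∈ closure {k : GL (Fin N) ℝ | ∃ z u w, z ∈ autC b ∧ ac b z H = H ∧ u ∈ UU b e {i | d i < 0} ∧
      w ∈ UU b e {i | 0 < d i} ∧ k = z * u * w} := by
  have h1 := dns h hE ((autC b).inv_mem hg)
  have h2 := map_mem_closure (f := fun k : GL (Fin N) ℝ => k⁻¹) continuous_inv h1
    (t := {k : GL (Fin N) ℝ | ∃ z u w, z ∈ autC b ∧ ac b z H = H ∧ u ∈ UU b e {i | d i < 0} ∧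
      w ∈ UU b e {i | 0 < d i} ∧ k = z * u * w}) ?_
  · simpa using h2
  rintro k ⟨hk, hT⟩
  obtain ⟨x, hx, hxn⟩ := trv_ex hE hT
  obtain ⟨u1, hu1, hu1e⟩ := rem_pos (b := b) hE hxn
  rw [add_sub_cancel, ← ac_mul] at hu1e
  have hu1c := UU_le b e _ hu1
  have hT' : Tv b H (u1 * k) := by
    intro y hy hy'
    refine hT y hy ?_
    have h3 : ac b k y = ac b u1⁻¹ (ac b (u1 * k) y) := by rw [ac_mul, ac_inv]
    rw [h3]
    refine UU_es hE (T := Ioi 0) (fun i hi => hi) (fun t ht s hs => ?_) ((UU b e _).inv_mem hu1) hy'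
    simp only [mem_Ioi] at ht hs ⊢
    linarith
  have hk1 : u1 * k ∈ autC b := (autC b).mul_mem hu1c hk
  have hq := trv_stab hE (autC_le b hk1) hT' hx hu1e
  obtain ⟨e', d', he', hE'⟩ := exists_eb h hH
  have hs := stab h he' hE' hH H0 hc (autC_le b hk1) hq
  obtain ⟨u2, hu2, hu2e⟩ := rem_neg (b := b) hE hs
  rw [add_sub_cancel, ← ac_mul] at hu2e
  have hu2c := UU_le b e _ hu2
  refine ⟨(u2 * (u1 * k))⁻¹, u2, u1, (autC b).inv_mem ((autC b).mul_mem hu2c hk1), ?_, hu2, hu1, ?_⟩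
  · have h4 := ac_inv (b := b) (u2 * (u1 * k)) H
    rwa [hu2e] at h4
  · group

/-- Invariance under a generated group. -/
private theorem inv_gen {P : autC b → Prop} (h1 : P 1) (hm : ∀ x y, P x → P y → P (x * y)) {I : Set (Fin N)}
    (hg : ∀ i ∈ I, ∀ s : ℝ, P ⟨ex (TT_to b (s • e i)), ex_mem_autC b _⟩) {w : GL (Fin N) ℝ} (hw : w ∈ UU b e I) (hwc : w ∈ autC b) :
    P ⟨w, hwc⟩ := by
  have key : ∀ w (hw : w ∈ UU b e I), P ⟨w, UU_le b e I hw⟩ ∧ P ⟨w⁻¹, (autC b).inv_mem (UU_le b e I hw)⟩ := by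
    intro w hw
    have hw' : w ∈ Subgroup.closure {g | ∃ i ∈ I, ∃ s : ℝ, g = ex (TT_to b (s • e i))} := hw
    induction hw' using Subgroup.closure_induction with
    | mem x hx =>
      obtain ⟨i, hi, s, rfl⟩ := hx
      refine ⟨hg i hi s, ?_⟩
      have h2 := hg i hi (-s)
      have e1 : (⟨ex (TT_to b (-s • e i)), ex_mem_autC b _⟩ : autC b) =
          ⟨(ex (TT_to b (s • e i)))⁻¹, (autC b).inv_mem (ex_mem_autC b _)⟩ := by
        apply Subtype.ext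
        change ex (TT_to b (-s • e i)) = (ex (TT_to b (s • e i)))⁻¹
        rw [neg_smul, map_neg, ex_neg]
      rwa [e1] at h2
    | one =>
      refine ⟨h1, ?_⟩
      have e1 : (⟨(1 : GL (Fin N) ℝ)⁻¹, (autC b).inv_mem (UU_le b e I hw)⟩ : autC b) = 1 := Subtype.ext inv_one
      rw [e1]
      exact h1
    | mul x y hx hy ihx ihy =>
      obtain ⟨a1, a2⟩ := ihx hx
      obtain ⟨b1, b2⟩ := ihy hy
      refine ⟨hm _ _ a1 b1, ?_⟩
      have e1 : (⟨(x * y)⁻¹, (autC b).inv_mem (UU_le b e I hw)⟩ : autC b) =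
          ⟨y⁻¹, (autC b).inv_mem (UU_le b e I hy)⟩ * ⟨x⁻¹, (autC b).inv_mem (UU_le b e I hx)⟩ :=
        Subtype.ext (_root_.mul_inv_rev x y)
      rw [e1]
      exact hm _ _ b2 a2
    | inv x hx ihx =>
      obtain ⟨a1, a2⟩ := ihx hx
      refine ⟨a2, ?_⟩
      have e1 : (⟨x⁻¹⁻¹, (autC b).inv_mem (UU_le b e I hw)⟩ : autC b) = ⟨x, UU_le b e I hx⟩ := Subtype.ext (inv_inv x)
      rw [e1]
      exact a1
  exact (key w hw).1

/-- **The big cell.** A closed set of `autC b` which is invariant on the left under the centralizer and the contracted elements of `exp(τ Hv)` and on the right under those of `exp(- τ Hu)`. -/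
theorem big_cell (h : CartanBasis θ b) {Hv Hu : L} (hv : θ Hv = -Hv) (hu : θ Hu = -Hu) (hvu : ⁅Hv, Hu⁆ = 0) (hv0 : Hv ≠ 0)
    (hc : ∀ Z : L, θ Z = -Z → (∀ y : L, ⁅Hv, y⁆ = 0 → ⁅Z, y⁆ = 0) → ∃ c : ℝ, Z = c • Hv)
    (hpos : ∀ x : L, x ≠ 0 → ∀ l m : ℝ, ⁅Hv, x⁆ = l • x → ⁅Hu, x⁆ = m • x → 0 < l → 0 ≤ m)
    {Z : Set (autC b)} (hZ : IsClosed Z) (h1 : (1 : autC b) ∈ Z)
    (hlc : ∀ q z : autC b, ac b q Hv = Hv → z ∈ Z → q * z ∈ Z)
    (hln : ∀ x ∈ es Hv (Iio 0), ∀ z ∈ Z, (⟨ex (TT_to b x), ex_mem_autC b x⟩ : autC b) * z ∈ Z)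
    (hrc : ∀ q z : autC b, ac b q Hu = Hu → z ∈ Z → z * q ∈ Z)
    (hrn : ∀ x ∈ es Hu (Ioi 0), ∀ z ∈ Z, z * (⟨ex (TT_to b x), ex_mem_autC b x⟩ : autC b) ∈ Z) : Z = univ := by
  obtain ⟨e, d, f, hE, hF⟩ := exists_joint h hv hu hvu
  have hright : ∀ w ∈ UU b e {i | 0 < d i}, ∀ hwc : w ∈ autC b, ∀ y ∈ Z, y * ⟨w, hwc⟩ ∈ Z := by
    intro w hw hwc
    refine inv_gen (P := fun w => ∀ y ∈ Z, y * w ∈ Z) ?_ ?_ ?_ hw hwc
    · intro y hy
      rwa [mul_one]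
    · intro x y hx hy z hz
      rw [← mul_assoc]
      exact hy _ (hx _ hz)
    · intro i hi s y hy
      have hf := hpos (e i) (e.ne_zero i) (d i) (f i) (hE i) (hF i) hi
      rcases hf.eq_or_lt with h0 | h0
      · refine hrc _ _ ?_ hy
        refine ac_ex_fix b ?_
        rw [smul_lie, ← lie_skew, hF i, ← h0, zero_smul, neg_zero, smul_zero]
      · exact hrn _ (Submodule.smul_mem _ _ (hF.mem i h0)) y hy
  have hleft : ∀ u ∈ UU b e {i | d i < 0}, ∀ huc : u ∈ autC b, ∀ y ∈ Z, ⟨u, huc⟩ * y ∈ Z := by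
    intro u hu huc
    refine inv_gen (P := fun u => ∀ y ∈ Z, u * y ∈ Z) ?_ ?_ ?_ hu huc
    · intro y hy
      rwa [one_mul]
    · intro x y hx hy z hz
      rw [mul_assoc]
      exact hx _ (hy _ hz)
    · intro i hi s y hy
      exact hln _ (Submodule.smul_mem _ _ (hE.mem i hi)) y hy
  refine eq_univ_of_forall fun g => ?_
  rw [← hZ.closure_eq, closure_subtype]
  refine closure_mono ?_ (dense_prod h hE hv hv0 hc g.2)
  rintro k ⟨z, u, w, hz, hzH, hu', hw', rfl⟩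
  have huc := UU_le b e _ hu'
  have hwc := UU_le b e _ hw'
  refine ⟨⟨z, hz⟩ * (⟨u, huc⟩ * ⟨w, hwc⟩), ?_, ?_⟩
  · refine hlc _ _ hzH (hleft u hu' huc _ ?_)
    have h2 := hright w hw' hwc 1 h1
    rwa [one_mul] at h2
  · change z * (u * w) = z * u * w
    rw [mul_assoc]

end Pool.Agent.Helper2.BC
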