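import Pool.Agent.Helper35.TZ.Conn
import Pool.Agent.Helper96.TO.Alg
import Pool.Agent.Helper66.BD.Conn

/-!
# Project OB (MP_0f6f3f_an), layer BC (big cell): definitions

`L` a real Lie algebra with a Cartan basis `b`, `ac b g` the automorphism of `L` given by the matrix `g`. For `H : L` with `θ H = - H` and a set `S` of real numbers `es H S` is the sum of
the eigenspaces of `ad H` with eigenvalues in `S`. `EB H e d`: `e` is a basis of eigenvectors of `ad H` with eigenvalues `d`. `UU b e I`: the group generated by the `exp(ad (s e_i))`, `i ∈ I`.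
`Tv b H g`: transversality, `g (es H (Iic 0)) ∩ es H (Ioi 0) = 0`.
-/

set_option autoImplicit false

open Matrix Set

namespace Pool.Agent.Helper2.BC

open Pool.Agent.Helper96.SA Pool.Agent.Helper96.TO Pool.Agent.Helper35.TZ

variable {L : Type} [LieRing L] [LieAlgebra ℝ L] {N : ℕ} {θ : L ≃ₗ⁅ℝ⁆ L} {b e : Module.Basis (Fin N) ℝ L}

/-- The linear map of a matrix. -/
noncomputable def ac (b : Module.Basis (Fin N) ℝ L) (g : GL (Fin N) ℝ) : L →ₗ[ℝ] L := toLin b b (g : Mat N)

/-- The sum of the eigenspaces of `ad H` with eigenvalues in `S`. -/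
noncomputable def es (H : L) (S : Set ℝ) : Submodule ℝ L :=
  ⨆ l ∈ S, Module.End.eigenspace (LieAlgebra.ad ℝ L H : Module.End ℝ L) l

/-- A basis of eigenvectors of `ad H`. -/
def EB (H : L) (e : Module.Basis (Fin N) ℝ L) (d : Fin N → ℝ) : Prop := ∀ i, ⁅H, e i⁆ = d i • e i

/-- The group generated by the `exp(ad (s e_i))`, `i ∈ I`. -/
noncomputable def UU (b e : Module.Basis (Fin N) ℝ L) (I : Set (Fin N)) : Subgroup (GL (Fin N) ℝ) :=
  Subgroup.closure {g | ∃ i ∈ I, ∃ s : ℝ, g = ex (TT_to b (s • e i))}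

/-- Transversality. -/
def Tv (b : Module.Basis (Fin N) ℝ L) (H : L) (g : GL (Fin N) ℝ) : Prop :=
  ∀ x ∈ es H (Iic 0), ac b g x ∈ es H (Ioi 0) → x = 0

section ac

theorem ac_mul (g h : GL (Fin N) ℝ) (x : L) : ac b (g * h) x = ac b g (ac b h x) := by
  unfold ac
  rw [Units.val_mul, toLin_mul b b b]
  rfl

theorem ac_one (x : L) : ac b 1 x = x := by
  unfold ac
  rw [Units.val_one, toLin_one]
  rfl

theorem ac_inv (g : GL (Fin N) ℝ) (x : L) : ac b g⁻¹ (ac b g x) = x := by
  rw [← ac_mul, inv_mul_cancel, ac_one]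

theorem ac_inv' (g : GL (Fin N) ℝ) (x : L) : ac b g (ac b g⁻¹ x) = x := by
  rw [← ac_mul, mul_inv_cancel, ac_one]

theorem ac_lie {g : GL (Fin N) ℝ} (hg : g ∈ autG b) (x y : L) : ac b g ⁅x, y⁆ = ⁅ac b g x, ac b g y⁆ :=
  mem_autG.1 hg x y

/-- The automorphism as a `LieEquiv`. -/
noncomputable def acE (b : Module.Basis (Fin N) ℝ L) {g : GL (Fin N) ℝ} (hg : g ∈ autG b) : L ≃ₗ⁅ℝ⁆ L :=
  { ac b g with
    map_lie' := fun {x y} => ac_lie hg x y
    invFun := ac b g⁻¹
    left_inv := ac_inv g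
    right_inv := ac_inv' g }

theorem acE_apply {g : GL (Fin N) ℝ} (hg : g ∈ autG b) (x : L) : acE b hg x = ac b g x := rfl

theorem kill_ac {g : GL (Fin N) ℝ} (hg : g ∈ autG b) (x y : L) :
    killingForm ℝ L (ac b g x) (ac b g y) = killingForm ℝ L x y :=
  LieAlgebra.killingForm_of_equiv_apply (acE b hg) x y

theorem ex_mem_autC (b : Module.Basis (Fin N) ℝ L) (x : L) : ex (TT_to b x) ∈ autC b :=
  (Pool.Agent.Helper66.BD.isAdj_component b).exp_ad x

theorem autC_le (b : Module.Basis (Fin N) ℝ L) : autC b ≤ autG b :=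
  (Pool.Agent.Helper66.BD.isAdj_component b).aut

theorem UU_le (b e : Module.Basis (Fin N) ℝ L) (I : Set (Fin N)) : UU b e I ≤ autC b := by
  refine (Subgroup.closure_le _).2 ?_
  rintro _ ⟨i, _, s, rfl⟩
  exact ex_mem_autC b _

end ac

section es

variable {H : L} {d : Fin N → ℝ} {S T U : Set ℝ}

theorem EB.coord (hE : EB H e d) (x : L) (i : Fin N) : e.repr ⁅H, x⁆ i = d i * e.repr x i := by
  conv_lhs => rw [← e.sum_repr x]
  rw [lie_sum]
  simp only [lie_smul]
  have h1 : ∀ j, e.repr x j • ⁅H, e j⁆ = (e.repr x j * d j) • e j := fun j => by rw [hE j, smul_smul]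
  simp only [h1, map_sum, map_smul, Module.Basis.repr_self]
  rw [Finsupp.finsetSum_apply, Finset.sum_eq_single i]
  · rw [Finsupp.smul_apply, Finsupp.single_eq_same, smul_eq_mul, mul_one, mul_comm]
  · intro j _ hj
    rw [Finsupp.smul_apply, Finsupp.single_eq_of_ne (Ne.symm hj), smul_zero]
  · intro hi
    exact absurd (Finset.mem_univ i) hi

theorem EB.mem (hE : EB H e d) (i : Fin N) (hi : d i ∈ S) : e i ∈ es H S := by
  unfold es
  refine Submodule.mem_iSup_of_mem (d i) (Submodule.mem_iSup_of_mem hi ?_)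
  rw [Module.End.mem_eigenspace_iff]
  exact hE i

/-- The space `es H S` in coordinates. -/
theorem mem_es (hE : EB H e d) {x : L} : x ∈ es H S ↔ ∀ i, d i ∉ S → e.repr x i = 0 := by
  constructor
  · intro hx
    unfold es at hx
    induction hx using Submodule.iSup_induction' with
    | mem l y hy =>
      intro i hi
      by_cases hl : l ∈ S
      · rw [iSup_pos hl, Module.End.mem_eigenspace_iff] at hy
        have h1 := hE.coord y i
        have hy' : ⁅H, y⁆ = l • y := hy
        rw [hy', map_smul, Finsupp.smul_apply, smul_eq_mul] at h1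
        have h2 : (l - d i) * e.repr y i = 0 := by linarith
        rcases mul_eq_zero.1 h2 with h3 | h3
        · exact absurd (by rwa [← sub_eq_zero.1 h3]) hi
        · exact h3
      · rw [iSup_neg hl] at hy
        rw [(Submodule.mem_bot ℝ).1 hy, map_zero]
        rfl
    | zero =>
      intro i _
      rw [map_zero]
      rfl
    | add y z _ _ hy hz =>
      intro i hi
      rw [map_add, Finsupp.add_apply, hy i hi, hz i hi, add_zero]
  · intro hx
    rw [← e.sum_repr x]
    refine Submodule.sum_mem _ fun i _ => ?_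
    by_cases hi : d i ∈ S
    · exact Submodule.smul_mem _ _ (hE.mem i hi)
    · rw [hx i hi, zero_smul]
      exact Submodule.zero_mem _

theorem es_mono (h : S ⊆ T) : es H S ≤ es H T := by
  unfold es
  exact biSup_mono h

theorem self_mem_es (H : L) (h0 : (0 : ℝ) ∈ S) : H ∈ es H S := by
  unfold es
  refine Submodule.mem_iSup_of_mem 0 (Submodule.mem_iSup_of_mem h0 ?_)
  rw [Module.End.mem_eigenspace_iff, zero_smul]
  exact lie_self H

/-- Brackets add the eigenvalues. -/
theorem EB.brk (hE : EB H e d) {i j k : Fin N} (h : d k ≠ d i + d j) : e.repr ⁅e i, e j⁆ k = 0 := by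
  have h1 : ⁅H, ⁅e i, e j⁆⁆ = (d i + d j) • ⁅e i, e j⁆ := by
    rw [leibniz_lie, hE i, hE j, smul_lie, lie_smul, add_smul]
  have h2 := hE.coord ⁅e i, e j⁆ k
  rw [h1, map_smul, Finsupp.smul_apply, smul_eq_mul] at h2
  have h3 : (d i + d j - d k) * e.repr ⁅e i, e j⁆ k = 0 := by linarith
  rcases mul_eq_zero.1 h3 with h4 | h4
  · exact absurd (by linarith) h
  · exact h4

theorem es_lie (hE : EB H e d) {x y : L} (hx : x ∈ es H S) (hy : y ∈ es H T) (h : ∀ s ∈ S, ∀ t ∈ T, s + t ∈ U) :
    ⁅x, y⁆ ∈ es H U := by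
  rw [← e.sum_repr x, ← e.sum_repr y, sum_lie]
  refine Submodule.sum_mem _ fun i _ => ?_
  rw [lie_sum]
  refine Submodule.sum_mem _ fun j _ => ?_
  rw [smul_lie, lie_smul]
  by_cases hi : d i ∈ S
  · by_cases hj : d j ∈ T
    · refine Submodule.smul_mem _ _ (Submodule.smul_mem _ _ ?_)
      rw [mem_es hE]
      intro k hk
      exact hE.brk fun h1 => hk (by rw [h1]; exact h _ hi _ hj)
    · rw [(mem_es hE).1 hy j hj, zero_smul, smul_zero]
      exact Submodule.zero_mem _
  · rw [(mem_es hE).1 hx i hi, zero_smul]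
    exact Submodule.zero_mem _

/-- The Killing form is zero unless the eigenvalues are opposite. -/
theorem EB.kill (hE : EB H e d) {i j : Fin N} (h : d i + d j ≠ 0) : killingForm ℝ L (e i) (e j) = 0 := by
  have h1 : killingForm ℝ L ⁅H, e i⁆ (e j) = -killingForm ℝ L (e i) ⁅H, e j⁆ :=
    LieModule.traceForm_apply_lie_apply' ℝ L L H (e i) (e j)
  rw [hE i, hE j, map_smul, map_smul, LinearMap.smul_apply, smul_eq_mul, smul_eq_mul] at h1
  have h2 : (d i + d j) * killingForm ℝ L (e i) (e j) = 0 := by linarith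
  exact (mul_eq_zero.1 h2).resolve_left h

theorem es_kill (hE : EB H e d) {x y : L} (hx : x ∈ es H S) (hy : y ∈ es H T) (h : ∀ s ∈ S, ∀ t ∈ T, s + t ≠ 0) :
    killingForm ℝ L x y = 0 := by
  rw [← e.sum_repr x, ← e.sum_repr y]
  simp only [map_sum, LinearMap.sum_apply, map_smul, LinearMap.smul_apply, smul_eq_mul]
  refine Finset.sum_eq_zero fun j _ => ?_
  by_cases hj : d j ∈ T
  · rw [Finset.sum_eq_zero, mul_zero]
    intro i _
    by_cases hi : d i ∈ S
    · rw [hE.kill (h _ hi _ hj), mul_zero]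
    · rw [(mem_es hE).1 hx i hi, zero_mul]
  · rw [(mem_es hE).1 hy j hj, zero_mul]

/-- Decomposition. -/
theorem es_decomp (hE : EB H e d) (S : Set ℝ) (x : L) : ∃ y ∈ es H S, ∃ z ∈ es H Sᶜ, x = y + z := by
  classical
  refine ⟨∑ i, if d i ∈ S then e.repr x i • e i else 0, ?_, ∑ i, if d i ∈ S then 0 else e.repr x i • e i, ?_, ?_⟩
  · refine Submodule.sum_mem _ fun i _ => ?_
    split_ifs with hi
    · exact Submodule.smul_mem _ _ (hE.mem i hi)
    · exact Submodule.zero_mem _
  · refine Submodule.sum_mem _ fun i _ => ?_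
    split_ifs with hi
    · exact Submodule.zero_mem _
    · exact Submodule.smul_mem _ _ (hE.mem i hi)
  · rw [← Finset.sum_add_distrib]
    conv_lhs => rw [← e.sum_repr x]
    refine Finset.sum_congr rfl fun i _ => ?_
    split_ifs
    · rw [add_zero]
    · rw [zero_add]

theorem es_disj (hE : EB H e d) {x : L} (hx : x ∈ es H S) (hy : x ∈ es H T) (h : Disjoint S T) : x = 0 := by
  apply e.repr.injective
  rw [map_zero]
  ext i
  by_cases hi : d i ∈ S
  · exact (mem_es hE).1 hy i (Set.disjoint_left.1 h hi)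
  · exact (mem_es hE).1 hx i hi

theorem EB.neg (hE : EB H e d) : EB (-H) e (fun i => -d i) := by
  intro i
  rw [neg_lie, hE i, neg_smul]

theorem mem_es_neg (hE : EB H e d) {x : L} : x ∈ es (-H) S ↔ x ∈ es H (Neg.neg ⁻¹' S) := by
  rw [mem_es hE, mem_es hE.neg]
  rfl

/-- `θ` exchanges the eigenvalues. -/
theorem theta_es (hH : θ H = -H) {x : L} (hx : x ∈ es H S) : θ x ∈ es H (Neg.neg ⁻¹' S) := by
  unfold es at hx
  induction hx using Submodule.iSup_induction' with
  | mem l y hy =>
    by_cases hl : l ∈ S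
    · rw [iSup_pos hl, Module.End.mem_eigenspace_iff] at hy
      have hy' : ⁅H, y⁆ = l • y := hy
      unfold es
      refine Submodule.mem_iSup_of_mem (-l) (Submodule.mem_iSup_of_mem (by simpa using hl) ?_)
      rw [Module.End.mem_eigenspace_iff]
      change ⁅H, θ y⁆ = -l • θ y
      have h1 : ⁅θ H, θ y⁆ = l • θ y := by rw [← LieEquiv.map_lie, hy', map_smul]
      rw [hH, neg_lie] at h1
      rw [neg_smul, ← h1, neg_neg]
    · rw [iSup_neg hl] at hy
      rw [(Submodule.mem_bot ℝ).1 hy, map_zero]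
      exact Submodule.zero_mem _
  | zero =>
    rw [map_zero]
    exact Submodule.zero_mem _
  | add y z _ _ hy hz =>
    rw [map_add]
    exact Submodule.add_mem _ hy hz

/-- Positivity of `- κ(x, θ x)`. -/
theorem eq_zero_of_form (h : CartanBasis θ b) {x : L} (hx : killingForm ℝ L x (θ x) = 0) : x = 0 := by
  have h1 := form_self h x x
  rw [hx, neg_zero] at h1
  apply b.equivFun.injective
  rw [map_zero]
  funext i
  have h3 := (Finset.sum_eq_zero_iff_of_nonneg (fun i _ => mul_self_nonneg (b.equivFun x i))).1 h1.symm i (Finset.mem_univ i)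
  exact mul_self_eq_zero.1 h3

end es

end Pool.Agent.Helper2.BC
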