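import Pool.Agent.Helper2.BC.Defs

/-!
# Project OB, layer BC, block BC-X: the exponentials `exp(ad x)` on `L`

`ac b (ex (TT_to b x)) z = ∑ (ad x)^n z / n!`. If `[x, z] ∈ F` and `[x, F] ⊆ F` then all terms with `n ≥ 1` are in `F`, and `F` is closed (finite dimension), so the difference with `z` is in `F`.
`ac_ex_mem2`: the same for the terms with `n ≥ 2`. `UU_es`: generators first (`ac_ex_mem` with `F = es H S`), then `Subgroup.closure_induction` (the set of the generators is closed under inverses, `ex_neg`).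
-/

set_option autoImplicit false

open Matrix Set

namespace Pool.Agent.Helper2.BC

open Pool.Agent.Helper96.SA Pool.Agent.Helper96.TO Pool.Agent.Helper35.TZ

variable {L : Type} [LieRing L] [LieAlgebra ℝ L] {N : ℕ} {θ : L ≃ₗ⁅ℝ⁆ L} {b e : Module.Basis (Fin N) ℝ L} {H : L} {d : Fin N → ℝ}

private theorem mulVec85 (b : Module.Basis (Fin N) ℝ L) (M : Mat N) (z : L) :
    b.equivFun (toLin b b M z) = M.mulVec (b.equivFun z) := by
  have h := LinearMap.toMatrix_mulVec_repr b b (toLin b b M) z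
  rw [LinearMap.toMatrix_toLin] at h
  exact h.symm

private theorem pow85 (b : Module.Basis (Fin N) ℝ L) (x z : L) (n : ℕ) :
    ((TT_to b x) ^ n).mulVec (b.equivFun z) =
      b.equivFun (((LieAlgebra.ad ℝ L x : Module.End ℝ L) ^ n) z) := by
  induction n with
  | zero => rw [pow_zero, pow_zero, Matrix.one_mulVec, Module.End.one_apply]
  | succ n ih =>
    rw [pow_succ', pow_succ', ← Matrix.mulVec_mulVec, ih, Module.End.mul_apply, ← mulVec85,
      toLin_TT_to, LieAlgebra.ad_apply]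

private theorem core85 (b : Module.Basis (Fin N) ℝ L) (x z : L) (F : Submodule ℝ L) (k : ℕ)
    (hF : ∀ n, ((LieAlgebra.ad ℝ L x : Module.End ℝ L) ^ (n + k)) z ∈ F) :
    ac b (ex (TT_to b x)) z - ∑ i ∈ Finset.range k, ((i.factorial : ℝ)⁻¹) •
      ((LieAlgebra.ad ℝ L x : Module.End ℝ L) ^ i) z ∈ F := by
  obtain ⟨X, hX⟩ : ∃ X, X = TT_to b x := ⟨_, rfl⟩
  have h1 : HasSum (fun n : ℕ => ((n.factorial : ℝ)⁻¹) • X ^ n) (NormedSpace.exp X) := by
    open scoped Matrix.Norms.Operator in exact NormedSpace.exp_series_hasSum_exp' X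
  have h2 := h1.map (AddMonoidHom.mk' (fun M : Mat N => M.mulVec (b.equivFun z))
    (fun A B => Matrix.add_mulVec A B _)) (Continuous.matrix_mulVec continuous_id continuous_const)
  have h3 : ∀ n : ℕ, ((AddMonoidHom.mk' (fun M : Mat N => M.mulVec (b.equivFun z))
      (fun A B => Matrix.add_mulVec A B _)) ∘ fun n : ℕ => ((n.factorial : ℝ)⁻¹) • X ^ n) n =
      b.equivFun (((n.factorial : ℝ)⁻¹) • ((LieAlgebra.ad ℝ L x : Module.End ℝ L) ^ n) z) := by
    intro n
    rw [map_smul, ← pow85, ← hX]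
    exact Matrix.smul_mulVec (R := ℝ) ((n.factorial : ℝ)⁻¹) (X ^ n) (b.equivFun z)
  have h4 : HasSum (fun n : ℕ => b.equivFun (((n.factorial : ℝ)⁻¹) •
      ((LieAlgebra.ad ℝ L x : Module.End ℝ L) ^ n) z)) ((NormedSpace.exp X).mulVec (b.equivFun z)) := by
    have h5 := h2
    rw [funext h3] at h5
    exact h5
  have h5 := (hasSum_nat_add_iff' k).2 h4
  have hcl : IsClosed ((F.map (b.equivFun : L →ₗ[ℝ] (Fin N → ℝ)) : Submodule ℝ (Fin N → ℝ)) :
      Set (Fin N → ℝ)) := Submodule.closed_of_finiteDimensional _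
  have h6 := hcl.mem_of_tendsto h5.tendsto_sum_nat (Filter.Eventually.of_forall fun n =>
    Submodule.sum_mem _ fun i _ => Submodule.mem_map_of_mem (F.smul_mem _ (hF i)))
  obtain ⟨y, hy, hy2⟩ := Submodule.mem_map.1 h6
  have h7 : ac b (ex (TT_to b x)) z - ∑ i ∈ Finset.range k, ((i.factorial : ℝ)⁻¹) •
      ((LieAlgebra.ad ℝ L x : Module.End ℝ L) ^ i) z = y := by
    apply b.equivFun.injective
    have h8 : b.equivFun y = (b.equivFun : L →ₗ[ℝ] (Fin N → ℝ)) y := rfl
    rw [h8, hy2, map_sub, map_sum, ac, mulVec85, ← hX]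
    rfl
  rw [h7]
  exact hy

theorem ac_ex_mem (b : Module.Basis (Fin N) ℝ L) (x z : L) (F : Submodule ℝ L) (h1 : ⁅x, z⁆ ∈ F) (hF : ∀ w ∈ F, ⁅x, w⁆ ∈ F) :
    ac b (ex (TT_to b x)) z - z ∈ F := by
  have h := core85 b x z F 1 (fun n => by
    induction n with
    | zero => rw [zero_add, pow_one, LieAlgebra.ad_apply]; exact h1
    | succ n ih =>
      rw [add_right_comm, pow_succ', Module.End.mul_apply, LieAlgebra.ad_apply]
      exact hF _ ih)
  simpa using h

theorem ac_ex_mem2 (b : Module.Basis (Fin N) ℝ L) (x z : L) (F : Submodule ℝ L) (h2 : ⁅x, ⁅x, z⁆⁆ ∈ F) (hF : ∀ w ∈ F, ⁅x, w⁆ ∈ F) :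
    ac b (ex (TT_to b x)) z - z - ⁅x, z⁆ ∈ F := by
  have h := core85 b x z F 2 (fun n => by
    induction n with
    | zero => rw [zero_add, pow_two, Module.End.mul_apply, LieAlgebra.ad_apply, LieAlgebra.ad_apply]; exact h2
    | succ n ih =>
      rw [add_right_comm, pow_succ', Module.End.mul_apply, LieAlgebra.ad_apply]
      exact hF _ ih)
  rw [Finset.sum_range_succ, Finset.sum_range_one] at h
  simp only [Nat.factorial, Nat.cast_one, inv_one, pow_zero, pow_one, one_smul, Module.End.one_apply,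
    LieAlgebra.ad_apply, Nat.succ_eq_add_one, zero_add, mul_one] at h
  rwa [sub_sub]

theorem ac_ex_fix (b : Module.Basis (Fin N) ℝ L) {x z : L} (h : ⁅x, z⁆ = 0) : ac b (ex (TT_to b x)) z = z := by
  have h1 := ac_ex_mem b x z ⊥ (by rw [h]; exact Submodule.zero_mem _) (fun w hw => by
    rw [(Submodule.mem_bot ℝ).1 hw, lie_zero]
    exact Submodule.zero_mem _)
  exact sub_eq_zero.1 ((Submodule.mem_bot ℝ).1 h1)

theorem UU_es (hE : EB H e d) {I : Set (Fin N)} {S T : Set ℝ} (hI : ∀ i ∈ I, d i ∈ T) (hST : ∀ t ∈ T, ∀ s ∈ S, t + s ∈ S)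
    {u : GL (Fin N) ℝ} (hu : u ∈ UU b e I) {x : L} (hx : x ∈ es H S) : ac b u x ∈ es H S := by
  have : Module.Finite ℝ L := Module.Finite.of_basis b
  unfold UU at hu
  induction hu using Subgroup.closure_induction generalizing x with
  | mem g hg =>
    obtain ⟨i, hi, s, rfl⟩ := hg
    have hs : s • e i ∈ es H T := Submodule.smul_mem _ _ (hE.mem i (hI i hi))
    have h1 : ∀ w ∈ es H S, ⁅s • e i, w⁆ ∈ es H S := fun w hw => es_lie hE hs hw hST
    have h2 := ac_ex_mem b (s • e i) x (es H S) (h1 x hx) h1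
    have h3 := Submodule.add_mem _ h2 hx
    rwa [sub_add_cancel] at h3
  | one => rw [ac_one]; exact hx
  | mul g h _ _ ihg ihh =>
    rw [ac_mul]
    exact ihg (ihh hx)
  | inv g _ ih =>
    have hinj : Function.Injective ((ac b g).restrict (p := es H S) (q := es H S) fun y hy => ih hy) := by
      intro y z hyz
      have h1 : ac b g (y : L) = ac b g (z : L) := congrArg Subtype.val hyz
      have h2 := congrArg (ac b g⁻¹) h1
      rw [ac_inv, ac_inv] at h2
      exact Subtype.ext h2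
    have hsur := LinearMap.injective_iff_surjective.1 hinj
    obtain ⟨y, hy⟩ := hsur ⟨x, hx⟩
    have h1 : ac b g (y : L) = x := congrArg Subtype.val hy
    rw [← h1, ac_inv]
    exact y.2

end Pool.Agent.Helper2.BC
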