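import Pool.Agent.Helper2.BC.Core
import Pool.Agent.Helper78.BM.Phi

/-!
# Project OB (MP_0f6f3f_an), layer BC: the final statements

`big_cell_seq`: a closed subset `Z ∋ 1` of `G₁ = autC b` with `q Z ⊆ Z` for `q` in the centralizer or contracted by `bv(n) = exp(τ_n ad Hv)` and `Z q ⊆ Z` for `q` in the centralizer of `bu(n) = exp(σ_n ad Hu)` or contracted by `bu(n)⁻¹` is `G₁`.
`big_cell_rk2`: the same for `L` of real rank two, `A` the flat, `Hv`, `Hu` linearly independent in `A`, some root `φ` with `φ Hv = 0`, and `0 ≤ φ Hu` for all roots `φ` with `0 < φ Hv`.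
-/

set_option autoImplicit false

open Matrix Set Filter Topology

namespace Pool.Agent.Helper2.BC

open Pool.Agent.Helper96.SA Pool.Agent.Helper96.TO Pool.Agent.Helper35.TZ
open Pool.Agent.Helper78.BM (Ctr)
open Pool.Agent.Helper66.FR (cen mem_cen)

variable {L : Type} [LieRing L] [LieAlgebra ℝ L] {N : ℕ} {θ : L ≃ₗ⁅ℝ⁆ L} {b e : Module.Basis (Fin N) ℝ L} {H : L} {d : Fin N → ℝ}

/-- Contracted elements. -/
theorem mem_Ctr (h : CartanBasis θ b) (hH : θ H = -H) {bs : ℕ → autC b} {τ : ℕ → ℝ} (hb : ∀ n, (bs n : GL (Fin N) ℝ) = ex (τ n • TT_to b H))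
    (hτ : Tendsto τ (hyperfilter ℕ) atTop) {x : L} (hx : x ∈ es H (Iio 0)) : (⟨ex (TT_to b x), ex_mem_autC b x⟩ : autC b) ∈ Ctr bs := by
  obtain ⟨e, d, -, hE⟩ := exists_eb h hH
  have h1 := lim_conj (b := b) hE hx hτ
  change Tendsto (fun n => bs n * (⟨ex (TT_to b x), ex_mem_autC b x⟩ : autC b) * (bs n)⁻¹) (hyperfilter ℕ) (𝓝 1)
  rw [nhds_subtype_eq_comap, tendsto_comap_iff]
  refine h1.congr fun n => ?_
  simp only [Function.comp_apply, Subgroup.coe_mul, Subgroup.coe_inv, hb n]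

theorem mem_Ctr_inv (h : CartanBasis θ b) (hH : θ H = -H) {bs : ℕ → autC b} {τ : ℕ → ℝ} (hb : ∀ n, (bs n : GL (Fin N) ℝ) = ex (τ n • TT_to b H))
    (hτ : Tendsto τ (hyperfilter ℕ) atTop) {x : L} (hx : x ∈ es H (Ioi 0)) :
    (⟨ex (TT_to b x), ex_mem_autC b x⟩ : autC b) ∈ Ctr fun n => (bs n)⁻¹ := by
  obtain ⟨e, d, -, hE⟩ := exists_eb h hH
  refine mem_Ctr h (H := -H) (by rw [map_neg, hH]) (τ := τ) (fun n => ?_) hτ ?_
  · rw [Subgroup.coe_inv, hb n, ← ex_neg, map_neg, smul_neg]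
  · rw [mem_es_neg hE]
    have e1 : Neg.neg ⁻¹' Iio (0 : ℝ) = Ioi 0 := by
      ext t
      simp
    rw [e1]
    exact hx

theorem mem_cen_of (bs : ℕ → autC b) {τ : ℕ → ℝ} (hb : ∀ n, (bs n : GL (Fin N) ℝ) = ex (τ n • TT_to b H)) {z : autC b} (hz : ac b z H = H) :
    z ∈ cen bs := by
  rw [mem_cen]
  intro n
  apply Subtype.ext
  rw [Subgroup.coe_mul, Subgroup.coe_mul, hb n]
  exact conj_fix (autC_le b z.2) hz (τ n)

theorem big_cell_seq (h : CartanBasis θ b) {Hv Hu : L} (hv : θ Hv = -Hv) (hu : θ Hu = -Hu) (hvu : ⁅Hv, Hu⁆ = 0) (hv0 : Hv ≠ 0)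
    (hc : ∀ Z : L, θ Z = -Z → (∀ y : L, ⁅Hv, y⁆ = 0 → ⁅Z, y⁆ = 0) → ∃ c : ℝ, Z = c • Hv)
    (hpos : ∀ x : L, x ≠ 0 → ∀ l m : ℝ, ⁅Hv, x⁆ = l • x → ⁅Hu, x⁆ = m • x → 0 < l → 0 ≤ m)
    {bv bu : ℕ → autC b} {τ σ : ℕ → ℝ} (hbv : ∀ n, (bv n : GL (Fin N) ℝ) = ex (τ n • TT_to b Hv))
    (hbu : ∀ n, (bu n : GL (Fin N) ℝ) = ex (σ n • TT_to b Hu)) (hτ : Tendsto τ (hyperfilter ℕ) atTop) (hσ : Tendsto σ (hyperfilter ℕ) atTop)
    {Z : Set (autC b)} (hZ : IsClosed Z) (h1 : (1 : autC b) ∈ Z)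
    (hl : ∀ q z : autC b, q ∈ Ctr bv ∨ q ∈ cen bv → z ∈ Z → q * z ∈ Z)
    (hr : ∀ q z : autC b, (q ∈ Ctr fun n => (bu n)⁻¹) ∨ q ∈ cen bu → z ∈ Z → z * q ∈ Z) : Z = univ :=
  big_cell h hv hu hvu hv0 hc hpos hZ h1 (fun q z hq hz => hl q z (Or.inr (mem_cen_of bv hbv hq)) hz)
    (fun _ hx z hz => hl _ z (Or.inl (mem_Ctr h hv hbv hτ hx)) hz)
    (fun q z hq hz => hr q z (Or.inr (mem_cen_of bu hbu hq)) hz)
    (fun _ hx z hz => hr _ z (Or.inl (mem_Ctr_inv h hu hbu hσ hx)) hz)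

theorem big_cell_rk2 (h : CartanBasis θ b) {A : Submodule ℝ L} (hA : MaxFlat θ A) (h2 : Module.finrank ℝ A = 2) {Hv Hu : A}
    (hli : LinearIndependent ℝ ![Hv, Hu]) (hφ : ∃ φ ∈ rootsL A, φ Hv = 0) (hp : ∀ φ ∈ rootsL A, 0 < φ Hv → 0 ≤ φ Hu)
    {bv bu : ℕ → autC b} {τ σ : ℕ → ℝ} (hbv : ∀ n, (bv n : GL (Fin N) ℝ) = ex (τ n • TT_to b (Hv : L)))
    (hbu : ∀ n, (bu n : GL (Fin N) ℝ) = ex (σ n • TT_to b (Hu : L))) (hτ : Tendsto τ (hyperfilter ℕ) atTop) (hσ : Tendsto σ (hyperfilter ℕ) atTop)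
    {Z : Set (autC b)} (hZ : IsClosed Z) (h1 : (1 : autC b) ∈ Z)
    (hl : ∀ q z : autC b, q ∈ Ctr bv ∨ q ∈ cen bv → z ∈ Z → q * z ∈ Z)
    (hr : ∀ q z : autC b, (q ∈ Ctr fun n => (bu n)⁻¹) ∨ q ∈ cen bu → z ∈ Z → z * q ∈ Z) : Z = univ := by
  obtain ⟨φ, hφ1, hφ2⟩ := hφ
  have hv0 : Hv ≠ 0 := by
    have := hli.ne_zero 0
    simpa using this
  refine big_cell_seq h (hA.neg _ Hv.2) (hA.neg _ Hu.2) (hA.abel _ Hv.2 _ Hu.2) (fun h0 => hv0 (Subtype.ext h0)) ?_ ?_ hbv hbu hτ hσ hZ h1 hl hr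
  · intro Z hZ hZc
    exact center_cond hA h2 hv0 hφ1 hφ2 hZ hZc
  · intro x hx l m hl hm h0
    exact pos_cond h2 hli hp hx hl hm h0

/-- The contracted elements are closed under inverses. -/
theorem Ctr_inv {G1 : Type} [Group G1] [TopologicalSpace G1] [IsTopologicalGroup G1] {bs : ℕ → G1} {q : G1} (hq : q ∈ Ctr bs) : q⁻¹ ∈ Ctr bs := by
  have h1 : Tendsto (fun n => (bs n * q * (bs n)⁻¹)⁻¹) (hyperfilter ℕ : Filter ℕ) (𝓝 1⁻¹) := Tendsto.inv hq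
  rw [inv_one] at h1
  refine h1.congr fun n => ?_
  group

/-- The same with the sides exchanged. -/
theorem big_cell_rk2' (h : CartanBasis θ b) {A : Submodule ℝ L} (hA : MaxFlat θ A) (h2 : Module.finrank ℝ A = 2) {Hv Hu : A}
    (hli : LinearIndependent ℝ ![Hv, Hu]) (hφ : ∃ φ ∈ rootsL A, φ Hv = 0) (hp : ∀ φ ∈ rootsL A, 0 < φ Hv → 0 ≤ φ Hu)
    {bv bu : ℕ → autC b} {τ σ : ℕ → ℝ} (hbv : ∀ n, (bv n : GL (Fin N) ℝ) = ex (τ n • TT_to b (Hv : L)))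
    (hbu : ∀ n, (bu n : GL (Fin N) ℝ) = ex (σ n • TT_to b (Hu : L))) (hτ : Tendsto τ (hyperfilter ℕ) atTop) (hσ : Tendsto σ (hyperfilter ℕ) atTop)
    {Z : Set (autC b)} (hZ : IsClosed Z) (h1 : (1 : autC b) ∈ Z)
    (hr : ∀ q z : autC b, q ∈ Ctr bv ∨ q ∈ cen bv → z ∈ Z → z * q ∈ Z)
    (hl : ∀ q z : autC b, (q ∈ Ctr fun n => (bu n)⁻¹) ∨ q ∈ cen bu → z ∈ Z → q * z ∈ Z) : Z = univ := by
  have h3 : (Z⁻¹ : Set (autC b)) = univ := by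
    refine big_cell_rk2 h hA h2 hli hφ hp hbv hbu hτ hσ (hZ.preimage continuous_inv) ?_ ?_ ?_
    · rw [Set.mem_inv, inv_one]
      exact h1
    · intro q z hq hz
      rw [Set.mem_inv] at hz ⊢
      rw [_root_.mul_inv_rev]
      refine hr _ _ ?_ hz
      rcases hq with hq | hq
      · exact Or.inl (Ctr_inv hq)
      · exact Or.inr (inv_mem hq)
    · intro q z hq hz
      rw [Set.mem_inv] at hz ⊢
      rw [_root_.mul_inv_rev]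
      refine hl _ _ ?_ hz
      rcases hq with hq | hq
      · exact Or.inl (Ctr_inv hq)
      · exact Or.inr (inv_mem hq)
  refine eq_univ_of_forall fun z => ?_
  have h4 : z⁻¹ ∈ (Z⁻¹ : Set (autC b)) := by
    rw [h3]
    trivial
  rwa [Set.mem_inv, inv_inv] at h4

end Pool.Agent.Helper2.BC
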