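import Pool.Agent.Helper2.BC.Exp

/-!
# Project OB, layer BC, block BC-A: `exp(n₊) H = H + n₊`

PROOF of `rem_pos`. Claim: for every finite set `S` of indices with `0 < d i` for `i ∈ S` and (`i ∈ S`, `d i < d j` ⟹ `j ∈ S`), and every `n` with `e.repr n k = 0` for `k ∉ S`, there is `u ∈ UU b e {i | 0 < d i}` with `ac b u (H + n) = H`. Induction on the cardinality of `S`. If `S = ∅` then
`n = 0`, `u = 1`. Otherwise take `i ∈ S` with `d i` minimal (`Finset.exists_min_image`), `c = e.repr n i`, `s = c / d i`, `x = s • e i`, `F = {y | e.repr y k = 0 for k ∉ S.erase i}`. Then `[x, H + n] = - s d_i e_i + s [e_i, n] = - c e_i + s [e_i, n]` and `[e_i, n] ∈ F`: `[e_i, e_j]`, `j ∈ S`, has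
only components `k` with `d k = d i + d j > d i` (`EB.brk`), so `k ∈ S`, `k ≠ i`. In the same way `[e_i, F] ⊆ F`, and `[x, [x, H + n]] = s² [e_i, [e_i, n]] ∈ F` (`[e_i, e_i] = 0`). By `ac_ex_mem2`: `ac b (ex (TT_to b x)) (H + n) = H + n - c e_i + (an element of F) = H + n'` with
`n' ∈ F` (for `S.erase i`, which satisfies the hypotheses since `d i` is minimal). Apply the induction hypothesis, `ac_mul`. The theorem is the case `S = {i | 0 < d i}`, `mem_es`.
PROOF of `rem_neg`: `rem_pos` for `-H` and `-d` (`EB.neg`, `mem_es_neg`), applied to `-(H + n)`; `ac b u` is linear.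
-/

set_option autoImplicit false

open Matrix Set

namespace Pool.Agent.Helper2.BC

open Pool.Agent.Helper96.SA Pool.Agent.Helper96.TO Pool.Agent.Helper35.TZ

variable {L : Type} [LieRing L] [LieAlgebra ℝ L] {N : ℕ} {b e : Module.Basis (Fin N) ℝ L} {H : L} {d : Fin N → ℝ}

private def FF63 (e : Module.Basis (Fin N) ℝ L) (S : Finset (Fin N)) : Submodule ℝ L where
  carrier := {y | ∀ k, k ∉ S → e.repr y k = 0}
  add_mem' := by
    intro x y hx hy k hk
    rw [map_add, Finsupp.add_apply, hx k hk, hy k hk, add_zero]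
  zero_mem' := by
    intro k _
    rw [map_zero]
    rfl
  smul_mem' := by
    intro c x hx k hk
    rw [map_smul, Finsupp.smul_apply, hx k hk, smul_zero]

private theorem mem_FF63 {S : Finset (Fin N)} {y : L} :
    y ∈ FF63 e S ↔ ∀ k, k ∉ S → e.repr y k = 0 := Iff.rfl

private theorem brk_FF63 (hE : EB H e d) {S : Finset (Fin N)} (hpos : ∀ i ∈ S, 0 < d i)
    (hup : ∀ i ∈ S, ∀ j, d i < d j → j ∈ S) {i : Fin N} (hi : i ∈ S) {n : L}
    (hn : n ∈ FF63 e S) : ⁅e i, n⁆ ∈ FF63 e (S.erase i) := by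
  rw [← e.sum_repr n, lie_sum]
  refine Submodule.sum_mem _ fun j _ => ?_
  rw [lie_smul]
  by_cases hj : j ∈ S
  · refine Submodule.smul_mem _ _ ?_
    intro k hk
    refine hE.brk fun h => hk ?_
    have hj0 := hpos j hj
    have hlt : d i < d k := by linarith
    refine Finset.mem_erase.mpr ⟨?_, hup i hi k hlt⟩
    rintro rfl
    exact lt_irrefl _ hlt
  · rw [hn j hj, zero_smul]
    exact Submodule.zero_mem _

private theorem FF_mono63 {S T : Finset (Fin N)} (h : S ⊆ T) : FF63 e S ≤ FF63 e T :=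
  fun _ hx k hk => hx k fun h' => hk (h h')

private theorem rem_aux63 (hE : EB H e d) : ∀ (m : ℕ) (S : Finset (Fin N)), S.card = m →
    (∀ i ∈ S, 0 < d i) → (∀ i ∈ S, ∀ j, d i < d j → j ∈ S) → ∀ n : L, n ∈ FF63 e S →
    ∃ u ∈ UU b e {i | 0 < d i}, ac b u (H + n) = H := by
  intro m
  induction m with
  | zero =>
    intro S hS _ _ n hn
    have hS' : S = ∅ := Finset.card_eq_zero.mp hS
    subst hS'
    have h0 : n = 0 := by
      apply e.repr.injective
      rw [map_zero]
      ext k
      exact hn k (Finset.notMem_empty k)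
    refine ⟨1, Subgroup.one_mem _, ?_⟩
    rw [h0, add_zero, ac_one]
  | succ m ih =>
    intro S hS hpos hup n hn
    have hne : S.Nonempty := by
      rw [← Finset.card_pos, hS]
      omega
    obtain ⟨i, hi, hmin⟩ := Finset.exists_min_image S d hne
    have hdi : 0 < d i := hpos i hi
    set c : ℝ := e.repr n i with hc
    set s : ℝ := c / d i with hs
    have hsd : s * d i = c := by
      rw [hs]
      field_simp
    have hsub : FF63 e (S.erase i) ≤ FF63 e S := FF_mono63 (Finset.erase_subset _ _)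
    have hF : ∀ w ∈ FF63 e (S.erase i), ⁅s • e i, w⁆ ∈ FF63 e (S.erase i) := by
      intro w hw
      rw [smul_lie]
      exact Submodule.smul_mem _ _ (brk_FF63 hE hpos hup hi (hsub hw))
    have hin : ⁅e i, n⁆ ∈ FF63 e (S.erase i) := brk_FF63 hE hpos hup hi hn
    have hxH : ⁅s • e i, H + n⁆ = -(c • e i) + s • ⁅e i, n⁆ := by
      rw [smul_lie, lie_add, ← lie_skew (e i) H, hE i, smul_add, smul_neg, smul_smul, hsd]
    have hxx : ⁅s • e i, ⁅s • e i, H + n⁆⁆ ∈ FF63 e (S.erase i) := by
      rw [hxH, lie_add, lie_neg, smul_lie, lie_smul, lie_self, smul_zero, smul_zero, neg_zero,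
        zero_add]
      exact hF _ (Submodule.smul_mem _ _ hin)
    have h2 := ac_ex_mem2 b (s • e i) (H + n) (FF63 e (S.erase i)) hxx hF
    set f : L := ac b (ex (TT_to b (s • e i))) (H + n) - (H + n) - ⁅s • e i, H + n⁆ with hf
    have hn' : n - c • e i + s • ⁅e i, n⁆ + f ∈ FF63 e (S.erase i) := by
      refine Submodule.add_mem _ (Submodule.add_mem _ ?_ (Submodule.smul_mem _ _ hin)) h2
      intro k hk
      rw [map_sub, map_smul, Finsupp.sub_apply, Finsupp.smul_apply, Module.Basis.repr_self,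
        smul_eq_mul]
      by_cases hki : k = i
      · subst hki
        rw [Finsupp.single_eq_same, mul_one, hc, sub_self]
      · have hkS : k ∉ S := fun h => hk (Finset.mem_erase.mpr ⟨hki, h⟩)
        rw [hn k hkS, Finsupp.single_eq_of_ne hki, mul_zero, sub_zero]
    have heq : ac b (ex (TT_to b (s • e i))) (H + n) =
        H + (n - c • e i + s • ⁅e i, n⁆ + f) := by
      rw [hf, hxH]
      abel
    obtain ⟨u, hu, hu'⟩ := ih (S.erase i) (by rw [Finset.card_erase_of_mem hi, hS]; rfl)
      (fun j hj => hpos j (Finset.mem_of_mem_erase hj))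
      (fun j hj k hk => by
        have hjS := Finset.mem_of_mem_erase hj
        refine Finset.mem_erase.mpr ⟨?_, hup j hjS k hk⟩
        rintro rfl
        exact absurd (hmin j hjS) (not_le.mpr hk))
      _ hn'
    refine ⟨u * ex (TT_to b (s • e i)), Subgroup.mul_mem _ hu
      (Subgroup.subset_closure ⟨i, hdi, s, rfl⟩), ?_⟩
    rw [ac_mul, heq, hu']

theorem rem_pos (hE : EB H e d) {n : L} (hn : n ∈ es H (Ioi 0)) : ∃ u ∈ UU b e {i | 0 < d i}, ac b u (H + n) = H := by
  classical
  refine rem_aux63 hE _ (Finset.univ.filter fun i => 0 < d i) rfl ?_ ?_ n ?_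
  · intro i hi
    exact (Finset.mem_filter.mp hi).2
  · intro i hi j hj
    exact Finset.mem_filter.mpr ⟨Finset.mem_univ _, lt_trans (Finset.mem_filter.mp hi).2 hj⟩
  · intro k hk
    refine (mem_es hE).1 hn k fun h => hk ?_
    exact Finset.mem_filter.mpr ⟨Finset.mem_univ _, h⟩

theorem rem_neg (hE : EB H e d) {n : L} (hn : n ∈ es H (Iio 0)) : ∃ u ∈ UU b e {i | d i < 0}, ac b u (H + n) = H := by
  have h1 : -n ∈ es (-H) (Ioi 0) := by
    rw [mem_es_neg hE]
    refine Submodule.neg_mem _ ?_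
    have h2 : (Neg.neg ⁻¹' (Ioi (0 : ℝ))) = Iio 0 := by
      ext t
      simp
    rw [h2]
    exact hn
  obtain ⟨u, hu, hu'⟩ := rem_pos (b := b) hE.neg h1
  have h3 : {i | 0 < -d i} = {i | d i < 0} := by
    ext i
    simp
  rw [h3] at hu
  refine ⟨u, hu, ?_⟩
  have h4 : -H + -n = -(H + n) := by abel
  rw [h4, map_neg] at hu'
  exact neg_injective hu'

end Pool.Agent.Helper2.BC
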